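import Pool.Agent.W889.VC.HF

set_option autoImplicit false

/-! Decoding binary relations on definable infinite sets. -/

namespace Pool.Agent.W889.SD

open Set
open Pool.Agent.W889.VC

/-- `u` is the `n`-th element of `P` -/
def Nth (P : ℕ → Prop) (n u : ℕ) : Prop :=
  P u ∧ ∃ s : Finset ℕ, s.card = n ∧ ∀ v, v ∈ s ↔ (v < u ∧ P v)

theorem nth_iff {P : ℕ → Prop} [DecidablePred P] {n u : ℕ} :
    Nth P n u ↔ P u ∧ Nat.count P u = n := by
  classical
  unfold Nth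
  refine and_congr Iff.rfl ?_
  constructor
  · rintro ⟨s, h1, h2⟩
    rw [Nat.count_eq_card_filter_range, ← h1]
    congr 1
    ext v
    rw [h2]
    simp
  · intro h
    refine ⟨(Finset.range u).filter P, ?_, fun v => by simp⟩
    rw [← Nat.count_eq_card_filter_range]
    exact h

theorem nth_equiv {P : ℕ → Prop} (h : ∀ N, ∃ u, N ≤ u ∧ P u) :
    ∃ e : ℕ ≃ {u // P u}, ∀ n u, Nth P n u ↔ (e n : ℕ) = u := by
  classical
  have hinf : {u | P u}.Infinite := by
    intro hf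
    obtain ⟨N, hN⟩ := hf.bddAbove
    obtain ⟨u, h1, h2⟩ := h (N + 1)
    have := hN h2
    omega
  let f : ℕ → {u // P u} := fun n => ⟨Nat.nth P n, Nat.nth_mem_of_infinite hinf n⟩
  have hf : Function.Bijective f := by
    constructor
    · intro m n h
      exact Nat.nth_injective hinf (congrArg Subtype.val h)
    · rintro ⟨u, hu⟩
      exact ⟨Nat.count P u, Subtype.ext (Nat.nth_count hu)⟩
  refine ⟨Equiv.ofBijective f hf, fun n u => ?_⟩
  rw [nth_iff]
  constructor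
  · rintro ⟨h1, rfl⟩
    exact Nat.nth_count h1
  · intro h'
    have h2 : Nat.nth P n = u := h'
    subst h2
    exact ⟨Nat.nth_mem_of_infinite hinf n, Nat.count_nth_of_infinite hinf n⟩

/-- the relation `A` on `P`, transported to `ℕ` -/
def Ind (P : ℕ → Prop) (A : ℕ → ℕ → Prop) (m n : ℕ) : Prop :=
  ∃ u v, Nth P m u ∧ Nth P n v ∧ A u v

theorem ind_iff {P : ℕ → Prop} {A : ℕ → ℕ → Prop} {e : ℕ ≃ {u // P u}}
    (he : ∀ n u, Nth P n u ↔ (e n : ℕ) = u) (m n : ℕ) : Ind P A m n ↔ A (e m) (e n) := by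
  constructor
  · rintro ⟨u, v, h1, h2, h3⟩
    rw [(he m u).1 h1, (he n v).1 h2]
    exact h3
  · intro h
    exact ⟨_, _, (he m _).2 rfl, (he n _).2 rfl, h⟩

section meas

variable {Y : Type} [MeasurableSpace Y]

theorem bp_nth {P : Y → ℕ → Prop} (h : ∀ u, BP (fun y => P y u)) (n u : ℕ) :
    BP (fun y => Nth (P y) n u) :=
  (h u).and <| BP.ex fun s : Finset ℕ => (BP.const (s.card = n)).and <|
    BP.all fun v => (BP.const (v ∈ s)).iff ((BP.const (v < u)).and (h v))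

theorem bp_ind {P : Y → ℕ → Prop} {A : Y → ℕ → ℕ → Prop} (h : ∀ u, BP (fun y => P y u))
    (hA : ∀ u v, BP (fun y => A y u v)) (m n : ℕ) : BP (fun y => Ind (P y) (A y) m n) :=
  BP.ex fun u => BP.ex fun v => (bp_nth h m u).and ((bp_nth h n v).and (hA u v))

open Classical in
/-- decoding -/
noncomputable def dc (P : Y → ℕ → Prop) (A : Y → ℕ → ℕ → Prop) (y : Y) : BinStr :=
  fun m n => decide (Ind (P y) (A y) m n)

theorem measurable_dc {P : Y → ℕ → Prop} {A : Y → ℕ → ℕ → Prop} (h : ∀ u, BP (fun y => P y u))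
    (hA : ∀ u v, BP (fun y => A y u v)) : Measurable (dc P A) := by
  refine measurable_pi_iff.2 fun m => measurable_pi_iff.2 fun n => ?_
  refine measurable_to_bool ?_
  refine (congrArg MeasurableSet (Set.ext fun y => ?_)).mp (bp_ind h hA m n)
  simp [dc]

end meas

theorem dc_iso {Y : Type} [MeasurableSpace Y] {P : Y → ℕ → Prop} {A : Y → ℕ → ℕ → Prop} {y z : Y}
    (hy : ∀ N, ∃ u, N ≤ u ∧ P y u) (hz : ∀ N, ∃ u, N ≤ u ∧ P z u) :
    BIso (dc P A y) (dc P A z) ↔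
      ∃ π : {u // P y u} ≃ {u // P z u}, ∀ u v : {u // P y u}, A y u v ↔ A z (π u) (π v) := by
  obtain ⟨e, he⟩ := nth_equiv hy
  obtain ⟨e', he'⟩ := nth_equiv hz
  have h1 : ∀ m n, dc P A y m n = true ↔ A y (e m) (e n) := fun m n => by
    simp [dc, ind_iff he]
  have h2 : ∀ m n, dc P A z m n = true ↔ A z (e' m) (e' n) := fun m n => by
    simp [dc, ind_iff he']
  constructor
  · rintro ⟨σ, hσ⟩
    refine ⟨(e.symm.trans σ).trans e', fun u v => ?_⟩
    have h3 := hσ (e.symm u) (e.symm v)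
    rw [Bool.eq_iff_iff, h1, h2] at h3
    rw [Equiv.apply_symm_apply, Equiv.apply_symm_apply] at h3
    exact h3.symm
  · rintro ⟨π, hπ⟩
    refine ⟨(e.trans π).trans e'.symm, fun m n => ?_⟩
    rw [Bool.eq_iff_iff, h1, h2]
    simp only [Equiv.trans_apply, Equiv.apply_symm_apply]
    exact (hπ _ _).symm

/-- the decoded structure is isomorphic to a given one -/
theorem dc_iso' {Y : Type} [MeasurableSpace Y] {P : Y → ℕ → Prop} {A : Y → ℕ → ℕ → Prop} {y : Y}
    {x : BinStr} (hy : ∀ N, ∃ u, N ≤ u ∧ P y u) (π : ℕ ≃ {u // P y u})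
    (h : ∀ m n, x m n = true ↔ A y (π m) (π n)) : BIso (dc P A y) x := by
  obtain ⟨e, he⟩ := nth_equiv hy
  have h1 : ∀ m n, dc P A y m n = true ↔ A y (e m) (e n) := fun m n => by
    simp [dc, ind_iff he]
  refine ⟨e.trans π.symm, fun m n => ?_⟩
  rw [Bool.eq_iff_iff, h1, h]
  simp

/-- Interpretations and faithful completeness. -/
theorem faithful_interp {Y : Type} [MeasurableSpace Y] {E : Y → Y → Prop} {K0 : BinStr → Prop}
    (hF : Faithful BIso K0) {W : Y → Prop} {δ : Y → BinStr} (symm : ∀ y z, E y z → E z y)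
    (hW : BP W) (hδ : Measurable δ) (hi : ∀ y z, E y z → W y → W z)
    (h1 : ∀ y z, W y → W z → (E y z ↔ BIso (δ y) (δ z)))
    (h2 : ∀ x, K0 x → ∃ y, W y ∧ BIso (δ y) x) {K : Y → Prop} (hK : ∀ y, W y → K y) :
    Faithful E K := by
  intro a B hB hinv
  obtain ⟨B', F, k1, k2, k3, k4, k5, k6, k7⟩ := hF a B hB hinv
  have hstep : ∀ y z, E y z → (W y ∧ δ y ∈ B') → (W z ∧ δ z ∈ B') := by
    rintro y z h ⟨h3, h4⟩
    have h5 := hi y z h h3
    exact ⟨h5, (k2 _ _ ((h1 y z h3 h5).1 h)).1 h4⟩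
  refine ⟨{y | W y ∧ δ y ∈ B'}, fun y => F (δ y), MeasurableSet.inter hW (hδ k1),
    fun y z h => ⟨hstep y z h, hstep z y (symm _ _ h)⟩, fun y hy => hK y hy.1, k4.comp hδ,
    fun y hy => k5 _ hy.2, fun y hy z hz => ?_, fun x hx => ?_⟩
  · rw [← k6 _ hy.2 _ hz.2]
    exact h1 y z hy.1 hz.1
  · obtain ⟨y0, h3, h4⟩ := k7 x hx
    obtain ⟨y, h5, h6⟩ := h2 y0 (k3 _ h3)
    have h7 : δ y ∈ B' := (k2 _ _ h6).2 h3
    exact ⟨y, ⟨h5, h7⟩, h4.trans ((k6 _ h3 _ h7).1 h6.symm)⟩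

/-- a bijection from a bijective relation -/
theorem equiv_of_rel {S T : Type} (R : S → T → Prop) (h1 : ∀ s, ∃ t, R s t)
    (h2 : ∀ t, ∃ s, R s t) (h3 : ∀ s t t', R s t → R s t' → t = t')
    (h4 : ∀ s s' t, R s t → R s' t → s = s') : ∃ e : S ≃ T, ∀ s, R s (e s) := by
  choose f hf using h1
  choose g hg using h2
  exact ⟨⟨f, g, fun s => h4 _ _ _ (hg _) (hf s), fun t => h3 _ _ _ (hf _) (hg t)⟩, hf⟩

end Pool.Agent.W889.SD
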