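import Pool.Agent.W889.SD.Comb
import Pool.Agent.Results.MP_bb6533_lc.NoInfiniteCliqueSubdivision

set_option autoImplicit false

/-! Every subdivision of the infinite complete graph contains all disjoint unions of subdivided
stars. -/

namespace Pool.Agent.W889.SD

open SimpleGraph

/-- position on a concatenation of paths -/
def st (len : ℕ → ℕ) : ℕ → ℕ × ℕ
  | 0 => (0, 0)
  | n + 1 => if (st len n).2 + 1 < len (st len n).1 then ((st len n).1, (st len n).2 + 1)
      else ((st len n).1 + 1, 0)

section st

variable {len : ℕ → ℕ} (hlen : ∀ j, 0 < len j)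

include hlen

theorem st_lt (n : ℕ) : (st len n).2 < len (st len n).1 := by
  induction n with
  | zero => exact hlen 0
  | succ n ih =>
    rw [st]
    split_ifs with h
    · exact h
    · exact hlen _

omit hlen in
theorem st_mono {n m : ℕ} (h : n < m) :
    (st len n).1 < (st len m).1 ∨ ((st len n).1 = (st len m).1 ∧ (st len n).2 < (st len m).2) := by
  have step : ∀ n, (st len n).1 < (st len (n + 1)).1 ∨
      ((st len n).1 = (st len (n + 1)).1 ∧ (st len n).2 < (st len (n + 1)).2) := by
    intro n
    rw [st]
    split_ifs with h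
    · exact Or.inr ⟨rfl, Nat.lt_succ_self _⟩
    · exact Or.inl (Nat.lt_succ_self _)
  induction m with
  | zero => omega
  | succ m ih =>
    have h1 := step m
    rcases Nat.lt_succ_iff_lt_or_eq.1 h with h2 | h2
    · have h3 := ih h2
      omega
    · rw [h2]
      exact h1

omit hlen in
theorem st_inj {n m : ℕ} (h : st len n = st len m) : n = m := by
  rcases lt_trichotomy n m with h1 | h1 | h1
  · have := st_mono (len := len) h1
    rw [h] at this
    omega
  · exact h1
  · have := st_mono (len := len) h1
    rw [h] at this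
    omega

end st

/-- right index of a path -/
def rgt (s l j : ℕ) : ℕ := 2 * Nat.pair (Nat.pair s l) j + 1

/-- left index of a path -/
def lft (s l : ℕ) : ℕ → ℕ
  | 0 => 2 * s
  | j + 1 => rgt s l j

theorem lft_lt (s l j : ℕ) : lft s l j < rgt s l j := by
  cases j with
  | zero =>
    show 2 * s < 2 * Nat.pair (Nat.pair s l) 0 + 1
    have h1 := Nat.left_le_pair s l
    have h2 := Nat.left_le_pair (Nat.pair s l) 0
    omega
  | succ j =>
    show 2 * Nat.pair (Nat.pair s l) j + 1 < 2 * Nat.pair (Nat.pair s l) (j + 1) + 1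
    have h : Nat.pair (Nat.pair s l) j < Nat.pair (Nat.pair s l) (j + 1) :=
      Nat.pair_lt_pair_right (Nat.pair s l) (Nat.lt_succ_self j)
    omega

theorem rgt_inj {s l j s' l' j' : ℕ} (h : rgt s l j = rgt s' l' j') : s = s' ∧ l = l' ∧ j = j' := by
  unfold rgt at h
  have h1 : Nat.pair (Nat.pair s l) j = Nat.pair (Nat.pair s' l') j' := by omega
  rw [Nat.pair_eq_pair] at h1
  obtain ⟨h2, h3⟩ := h1
  rw [Nat.pair_eq_pair] at h2
  exact ⟨h2.1, h2.2, h3⟩

theorem lft_inj {s l j s' l' j' : ℕ} (h : lft s l j = lft s' l' j') :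
    s = s' ∧ j = j' ∧ (j = 0 ∨ l = l') := by
  cases j with
  | zero =>
    cases j' with
    | zero =>
      have : 2 * s = 2 * s' := h
      exact ⟨by omega, rfl, Or.inl rfl⟩
    | succ j' =>
      have : 2 * s = 2 * Nat.pair (Nat.pair s' l') j' + 1 := h
      omega
  | succ j =>
    cases j' with
    | zero =>
      have : 2 * Nat.pair (Nat.pair s l) j + 1 = 2 * s' := h
      omega
    | succ j' =>
      obtain ⟨h1, h2, h3⟩ := rgt_inj h
      exact ⟨h1, by rw [h3], Or.inr h2⟩

open Pool.Agent.Results.MP_bb6533_lc.NoInfiniteCliqueSubdivision in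
theorem spiders_sub {G : SimpleGraph ℕ} (hG : HasInfiniteCliqueSubdivision G) :
    ∃ f : ℕ × Option (ℕ × ℕ) → ℕ, Function.Injective f ∧
      ∀ u v, spiders.Adj u v → G.Adj (f u) (f v) := by
  obtain ⟨v, hv, P, hP1, hP2, hP3⟩ := hG
  let Q : ∀ s l j : ℕ, G.Walk (v (lft s l j)) (v (rgt s l j)) := fun s l j =>
    P (lft s l j) (rgt s l j)
  have hQ : ∀ s l j, (Q s l j).IsPath := fun s l j => hP1 _ _ (lft_lt s l j)
  let len : ℕ → ℕ → ℕ → ℕ := fun s l j => (Q s l j).length
  have hlen : ∀ s l j, 0 < len s l j := by
    intro s l j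
    rcases Nat.eq_zero_or_pos (len s l j) with h | h
    · exfalso
      have := Walk.eq_of_length_eq_zero h
      have := hv this
      have := lft_lt s l j
      omega
    · exact h
  let x : ℕ → ℕ → ℕ → ℕ := fun s l n =>
    (Q s l (st (len s l) n).1).getVert (st (len s l) n).2
  have hx0 : ∀ s l, x s l 0 = v (2 * s) := fun s l => Walk.getVert_zero _
  have hadj : ∀ s l n, G.Adj (x s l n) (x s l (n + 1)) := by
    intro s l n
    have h1 := st_lt (hlen s l) n
    have h2 := (Q s l (st (len s l) n).1).adj_getVert_succ h1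
    by_cases h : (st (len s l) n).2 + 1 < len s l (st (len s l) n).1
    · have h3 : st (len s l) (n + 1) = ((st (len s l) n).1, (st (len s l) n).2 + 1) := by
        rw [st]
        exact if_pos h
      have h4 : x s l (n + 1) =
          (Q s l (st (len s l) n).1).getVert ((st (len s l) n).2 + 1) := by
        show (Q s l (st (len s l) (n + 1)).1).getVert (st (len s l) (n + 1)).2 = _
        rw [h3]
      rw [h4]
      exact h2
    · have h3 : st (len s l) (n + 1) = ((st (len s l) n).1 + 1, 0) := by
        rw [st]
        exact if_neg h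
      have h4 : x s l (n + 1) = v (rgt s l (st (len s l) n).1) := by
        show (Q s l (st (len s l) (n + 1)).1).getVert (st (len s l) (n + 1)).2 = _
        rw [h3]
        exact Walk.getVert_zero _
      have h5 : (Q s l (st (len s l) n).1).getVert ((st (len s l) n).2 + 1) =
          v (rgt s l (st (len s l) n).1) := by
        have : (st (len s l) n).2 + 1 = (Q s l (st (len s l) n).1).length := by
          have h6 : len s l (st (len s l) n).1 = (Q s l (st (len s l) n).1).length := rfl
          omega
        rw [this]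
        exact Walk.getVert_length _
      rw [h4, ← h5]
      exact h2
  -- inner vertices are not branch vertices
  have hinner : ∀ s l j r, r < len s l j → 0 < r → ∀ m, (Q s l j).getVert r ≠ v m := by
    intro s l j r hr h0 m hm
    have hmem : v m ∈ (Q s l j).support := by
      rw [← hm]
      exact Walk.getVert_mem_support _ _
    have hr' : r < (Q s l j).length := hr
    rcases hP2 _ _ m (lft_lt s l j) hmem with h | h
    · rw [h] at hm
      have h1 : (Q s l j).getVert r = (Q s l j).getVert 0 := by rw [hm, Walk.getVert_zero]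
      have := (hQ s l j).getVert_injOn (by simp; omega) (by simp) h1
      omega
    · rw [h] at hm
      have h1 : (Q s l j).getVert r = (Q s l j).getVert (Q s l j).length := by
        rw [hm, Walk.getVert_length]
      have := (hQ s l j).getVert_injOn (by simp; omega) (by simp) h1
      omega
  have hinj : ∀ s l j r s' l' j' r', r < len s l j → r' < len s' l' j' →
      (Q s l j).getVert r = (Q s' l' j').getVert r' →
      s = s' ∧ j = j' ∧ r = r' ∧ ((j = 0 ∧ r = 0) ∨ l = l') := by
    intro s l j r s' l' j' r' hr hr' h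
    rcases Nat.eq_zero_or_pos r with h0 | h0 <;> rcases Nat.eq_zero_or_pos r' with h0' | h0'
    · subst h0 h0'
      rw [Walk.getVert_zero, Walk.getVert_zero] at h
      obtain ⟨h1, h2, h3⟩ := lft_inj (hv h)
      exact ⟨h1, h2, rfl, h3.imp (fun h => ⟨h, rfl⟩) id⟩
    · subst h0
      rw [Walk.getVert_zero] at h
      exact absurd h.symm (hinner s' l' j' r' hr' h0' _)
    · subst h0'
      rw [Walk.getVert_zero] at h
      exact absurd h (hinner s l j r hr h0 _)
    · have hne : ¬ (lft s l j, rgt s l j) ≠ (lft s' l' j', rgt s' l' j') := by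
        intro hne
        obtain ⟨m, hm⟩ := hP3 _ _ _ _ (lft_lt s l j) (lft_lt s' l' j') hne
          ((Q s l j).getVert r) (Walk.getVert_mem_support _ _)
          (by rw [h]; exact Walk.getVert_mem_support _ _)
        exact hinner s l j r hr h0 m hm
      push Not at hne
      obtain ⟨h1, h2, h3⟩ := rgt_inj (Prod.mk.inj hne).2
      subst h1 h2 h3
      have hr2 : r < (Q s l j).length := hr
      have hr3 : r' < (Q s l j).length := hr'
      have := (hQ s l j).getVert_injOn (by simp; omega) (by simp; omega) h
      exact ⟨rfl, rfl, this, Or.inr rfl⟩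
  let f : ℕ × Option (ℕ × ℕ) → ℕ := fun t => match t with
    | (s, none) => v (2 * s)
    | (s, some (l, d)) => x s l (d + 1)
  have hf : ∀ s l n s' l' n', x s l n = x s' l' n' → s = s' ∧ n = n' ∧ (n = 0 ∨ l = l') := by
    intro s l n s' l' n' h
    obtain ⟨h1, h2, h3, h4⟩ := hinj _ _ _ _ _ _ _ _ (st_lt (hlen s l) n)
      (st_lt (hlen s' l') n') h
    subst h1
    rcases h4 with ⟨h4, h5⟩ | h4
    · have e0 : st (len s l) n = st (len s l) 0 := Prod.ext h4 h5
      have e1 : st (len s l') n' = st (len s l') 0 :=
        Prod.ext (h2.symm.trans h4) (h3.symm.trans h5)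
      have e2 := st_inj e0
      have e3 := st_inj e1
      exact ⟨rfl, by omega, Or.inl e2⟩
    · subst h4
      exact ⟨rfl, st_inj (Prod.ext h2 h3), Or.inr rfl⟩
  refine ⟨f, ?_, ?_⟩
  · rintro ⟨s, _ | ⟨l, d⟩⟩ ⟨s', _ | ⟨l', d'⟩⟩ h
    · have h1 : v (2 * s) = v (2 * s') := h
      have := hv h1
      have : s = s' := by omega
      rw [this]
    · have h1 : x s l' 0 = x s' l' (d' + 1) := by
        rw [hx0]
        exact h
      have := (hf _ _ _ _ _ _ h1).2.1
      omega
    · have h1 : x s l (d + 1) = x s' l 0 := by
        rw [hx0]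
        exact h
      have := (hf _ _ _ _ _ _ h1).2.1
      omega
    · have h1 : x s l (d + 1) = x s' l' (d' + 1) := h
      obtain ⟨h2, h3, h4⟩ := hf _ _ _ _ _ _ h1
      rcases h4 with h4 | h4
      · omega
      · have : d = d' := by omega
        rw [h2, h4, this]
  · have half : ∀ u w : ℕ × Option (ℕ × ℕ), (u.1 = w.1 ∧
        ((u.2 = none ∧ ∃ l, w.2 = some (l, 0)) ∨
        ∃ l d, u.2 = some (l, d) ∧ w.2 = some (l, d + 1))) → G.Adj (f u) (f w) := by
      rintro ⟨s, u⟩ ⟨s', w⟩ ⟨h1, h2⟩
      have h1' : s = s' := h1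
      subst h1'
      rcases h2 with ⟨h2, l, h3⟩ | ⟨l, d, h2, h3⟩
      · have h2' : u = none := h2
        have h3' : w = some (l, 0) := h3
        subst h2' h3'
        show G.Adj (v (2 * s)) (x s l 1)
        rw [← hx0 s l]
        exact hadj s l 0
      · have h2' : u = some (l, d) := h2
        have h3' : w = some (l, d + 1) := h3
        subst h2' h3'
        exact hadj s l (d + 1)
    intro u w h
    unfold spiders at h
    rw [SimpleGraph.fromRel_adj] at h
    rcases h.2 with h | h
    · exact half u w h
    · exact (half w u h).symm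

end Pool.Agent.W889.SD
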