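import Pool.Agent.W889.SD.Deg
import Pool.Agent.W889.SD.Ray
import Pool.Agent.W889.VC.Coh2

set_option autoImplicit false

/-! Assembly of the dichotomy for forbidden subgraphs. -/

namespace Pool.Agent.W889.SD

open Pool.Agent.W889.VC

/-- subgraph relation -/
def SubOf {V W : Type} (H : SimpleGraph V) (r : W → W → Prop) : Prop :=
  ∃ f : V → W, Function.Injective f ∧ ∀ u v, H.Adj u v → r (f u) (f v)

/-- adjacency in the Gaifman graph -/
def Gf {a : ℕ → ℕ} (x : Str a) (u v : ℕ) : Prop :=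
  u ≠ v ∧ ∃ i, ∃ t : Fin (a i) → ℕ, x i t = true ∧ u ∈ Set.range t ∧ v ∈ Set.range t

variable {ι : Type} {V : ι → Type} (H : ∀ i, SimpleGraph (V i))

/-- structures without forbidden subgraphs of the Gaifman graph -/
def GFree {a : ℕ → ℕ} (x : Str a) : Prop := ∀ i, ¬ SubOf (H i) (Gf x)

/-- graphs without forbidden subgraphs -/
def SFree (y : BinStr) : Prop := IsGraph y ∧ ∀ i, ¬ SubOf (H i) (fun u v => y u v = true)

theorem SubOf.trans {A B : Type} {G : SimpleGraph A} {K : SimpleGraph B} {W : Type}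
    {r : W → W → Prop} (h : SubOf G K.Adj) (h' : SubOf K r) : SubOf G r := by
  obtain ⟨f, h1, h2⟩ := h
  obtain ⟨g, h3, h4⟩ := h'
  exact ⟨g ∘ f, h3.comp h1, fun u v h => h4 _ _ (h2 _ _ h)⟩

theorem pos_str {i : ι} (hi : SubOf (H i) spiders.Adj) (a : ℕ → ℕ) :
    VCof True (Iso (a := a)) (GFree H) := by
  intro B hB hinv hK
  rcases Pool.Agent.Results.MP_bb6533_lc.NoInfiniteCliqueSubdivision.result a B hB
    (fun x y σ h => hinv x y ⟨σ, h⟩) (fun x hx hs => by
      obtain ⟨f, h1, h2⟩ := spiders_sub hs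
      exact hK x hx i (hi.trans ⟨f, h1, h2⟩)) with ⟨f, hf⟩ | ⟨g, h1, h2, h3⟩
  · left
    refine ⟨f, fun x hx => ?_⟩
    obtain ⟨n, σ, h⟩ := hf x hx
    exact ⟨n, σ, h⟩
  · right
    exact ⟨g, fun _ => h1, h2, fun c d ⟨σ, h⟩ => h3 c d ⟨σ, h⟩⟩

theorem pos_bin {i : ι} (hi : SubOf (H i) spiders.Adj) : VCof True BIso (SFree H) := by
  refine down_bin True (SFree H) (GFree H) ?_ (pos_str H hi _)
  rintro y ⟨hg, hy⟩ j ⟨f, hf, hf'⟩
  refine hy j ⟨f, hf, fun u v huv => ?_⟩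
  obtain ⟨hne, n, t, h1, ⟨m1, h2⟩, ⟨m2, h3⟩⟩ := hf' u v huv
  unfold up at h1
  by_cases hn : n = 0
  · rw [if_pos hn] at h1
    have hm : m1 ≠ m2 := fun e => hne (by rw [← h2, ← h3, e])
    have h4 : y (t m1) (t m2) = true := by
      fin_cases m1 <;> fin_cases m2
      · exact absurd rfl hm
      · exact h1
      · exact hg.symm _ _ h1
      · exact absurd rfl hm
    rw [h2, h3] at h4
    exact h4
  · rw [if_neg hn] at h1
    exact absurd h1 (by decide)

theorem neg_bin [Finite ι] [∀ i, Countable (V i)] (h : ∀ i, ¬ SubOf (H i) spiders.Adj) :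
    Faithful BIso (SFree H) := by
  have h1 := fun i => avoid (H i) (h i)
  choose m hm using h1
  obtain ⟨k, hk⟩ := (Set.finite_range m).bddAbove
  have hk' : ∀ i, m i ≤ k := fun i => hk ⟨i, rfl⟩
  refine (faithful_sub k).mono ?_
  intro y hy
  refine ⟨⟨fun u => ?_, hy.1.symm⟩, fun i => hm i k (hk' i) ℕ (rel y) hy.1⟩
  rw [Bool.eq_false_iff]
  exact hy.1.irrefl u

end Pool.Agent.W889.SD
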