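import Pool.Agent.W889.SD.Tgt

set_option autoImplicit false

/-! Graphs all of whose vertices have at least three neighbours. -/

namespace Pool.Agent.W889.SD

open Set
open Pool.Agent.W889.VC
open Pool.Agent.W889.VC.Grid

theorem jrep_big {γ : Grid ℕ} {z : ℕ → ℕ → Prop} (hb : Base γ) (hr0 : ∃ r, γ.R r)
    (hc0 : ∃ c, γ.C c) (hf : ∀ r c, γ.R r → γ.C c → ∃ p, γ.Fib r c p)
    (hz : JRep False γ z) (u : ℕ) : Big z u := by
  obtain ⟨r0, hr0⟩ := hr0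
  obtain ⟨c0, hc0⟩ := hc0
  have ne_of_row : ∀ p q r r', γ.P p → γ.R r → γ.iR p r → γ.R r' → γ.iR q r' → r ≠ r' → p ≠ q := by
    rintro p q r r' hp hr h1 hr' h2 hne rfl
    obtain ⟨s, -, -, h3⟩ := hb.rR p hp
    exact hne ((h3 r hr h1).trans (h3 r' hr' h2).symm)
  have ne_of_col : ∀ p q r r', γ.P p → γ.C r → γ.iC p r → γ.C r' → γ.iC q r' → r ≠ r' → p ≠ q := by
    rintro p q r r' hp hr h1 hr' h2 hne rfl
    obtain ⟨s, -, -, h3⟩ := hb.rC p hp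
    exact hne ((h3 r hr h1).trans (h3 r' hr' h2).symm)
  rcases cases3 γ u with hu | hu | hu
  · obtain ⟨r1, h1, l1⟩ := hb.dR.below u hu
    obtain ⟨r2, h2, l2⟩ := hb.dR.below r1 h1
    have l3 := hb.dR.trans _ _ _ h2 h1 hu l2 l1
    obtain ⟨p, a1, a2, a3⟩ := hf u c0 hu hc0
    obtain ⟨p1, b1, b2, b3⟩ := hf r1 c0 h1 hc0
    obtain ⟨p2, d1, d2, d3⟩ := hf r2 c0 h2 hc0
    have n1 : u ≠ r1 := fun e => hb.dR.irrefl u hu (by rw [← e] at l1; exact l1)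
    have n2 : u ≠ r2 := fun e => hb.dR.irrefl u hu (by rw [← e] at l3; exact l3)
    have n3 : r1 ≠ r2 := fun e => hb.dR.irrefl r1 h1 (by rw [← e] at l2; exact l2)
    exact ⟨p, p1, p2, ne_of_row p p1 u r1 a1 hu a2 h1 b2 n1, ne_of_row p p2 u r2 a1 hu a2 h2 d2 n2,
      ne_of_row p1 p2 r1 r2 b1 h1 b2 h2 d2 n3,
      (hz.rp u p u hu a1 hu a2).2 (Or.inl rfl), (hz.rp u p1 r1 hu b1 h1 b2).2 (Or.inr l1),
      (hz.rp u p2 r2 hu d1 h2 d2).2 (Or.inr l3)⟩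
  · obtain ⟨r1, h1, l1⟩ := hb.dC.above u hu
    obtain ⟨r2, h2, l2⟩ := hb.dC.above r1 h1
    obtain ⟨r3, h3, l3⟩ := hb.dC.above r2 h2
    have m2 := hb.dC.trans _ _ _ hu h1 h2 l1 l2
    have m3 := hb.dC.trans _ _ _ hu h2 h3 m2 l3
    have m4 := hb.dC.trans _ _ _ h1 h2 h3 l2 l3
    obtain ⟨p1, b1, b2, b3⟩ := hf r0 r1 hr0 h1
    obtain ⟨p2, d1, d2, d3⟩ := hf r0 r2 hr0 h2
    obtain ⟨p3, e1, e2, e3⟩ := hf r0 r3 hr0 h3
    have n1 : r1 ≠ r2 := fun e => hb.dC.irrefl r1 h1 (by rw [← e] at l2; exact l2)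
    have n2 : r1 ≠ r3 := fun e => hb.dC.irrefl r1 h1 (by rw [← e] at m4; exact m4)
    have n3 : r2 ≠ r3 := fun e => hb.dC.irrefl r2 h2 (by rw [← e] at l3; exact l3)
    exact ⟨p1, p2, p3, ne_of_col p1 p2 r1 r2 b1 h1 b3 h2 d3 n1,
      ne_of_col p1 p3 r1 r3 b1 h1 b3 h3 e3 n2, ne_of_col p2 p3 r2 r3 d1 h2 d3 h3 e3 n3,
      (hz.cp u p1 r1 hu b1 h1 b3).2 l1, (hz.cp u p2 r2 hu d1 h2 d3).2 m2,
      (hz.cp u p3 r3 hu e1 h3 e3).2 m3⟩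
  · obtain ⟨r, h0, l0, -⟩ := hb.rR u hu
    obtain ⟨r1, h1, l1⟩ := hb.dR.above r h0
    obtain ⟨r2, h2, l2⟩ := hb.dR.above r1 h1
    have l3 := hb.dR.trans _ _ _ h0 h1 h2 l1 l2
    have n1 : r ≠ r1 := fun e => hb.dR.irrefl r h0 (by rw [← e] at l1; exact l1)
    have n2 : r ≠ r2 := fun e => hb.dR.irrefl r h0 (by rw [← e] at l3; exact l3)
    have n3 : r1 ≠ r2 := fun e => hb.dR.irrefl r1 h1 (by rw [← e] at l2; exact l2)
    exact ⟨r, r1, r2, n1, n2, n3, hz.symm _ _ ((hz.rp r u r h0 hu h0 l0).2 (Or.inl rfl)),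
      hz.symm _ _ ((hz.rp r1 u r h1 hu h0 l0).2 (Or.inr l1)),
      hz.symm _ _ ((hz.rp r2 u r h2 hu h0 l0).2 (Or.inr l3))⟩

/-- graphs all of whose vertices have at least three neighbours -/
def K3 (y : BinStr) : Prop := IsGraph y ∧ ∀ u, Big (rel y) u

theorem target_K3 : Target BIso K3 (DJ False) (fun y => WJ False y ∧ ∀ u, Big (rel y) u) where
  symm _ _ h := h.symm
  mg := target_Bip.mg
  mW := target_Bip.mW.and (BP.all fun u => bp_big bp_atom u)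
  inv := by
    rintro y z h ⟨h1, h2⟩
    refine ⟨target_Bip.inv y z h h1, fun u => ?_⟩
    obtain ⟨σ, h⟩ := h
    obtain ⟨u, rfl⟩ := σ.surjective u
    exact (big_map σ (rel_equi h) u).1 (h2 u)
  iso := target_Bip.iso
  iso' y z hy hz := target_Bip.iso' y z hy.1 hz.1
  ex := by
    intro γ hb hr0 hc0 hf hm
    obtain ⟨y, h1, h2⟩ := target_Bip.ex γ hb hr0 hc0 hf hm
    refine ⟨y, ⟨h1, ?_⟩, h2⟩
    have e : ∀ u, (Equiv.refl ℕ) u = u := fun u => rfl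
    refine jrep_big (γ := DJ False y) (h2.base hb) ?_ ?_ ?_ h1
    · obtain ⟨r, hr⟩ := hr0
      exact ⟨r, (h2.R r).1 hr⟩
    · obtain ⟨r, hr⟩ := hc0
      exact ⟨r, (h2.C r).1 hr⟩
    · intro r c hr hc
      have hr' := (h2.R r).2 hr
      have hc' := (h2.C c).2 hc
      obtain ⟨p, hp⟩ := hf r c hr' hc'
      exact ⟨p, (fib_map h2 hr' hc').1 hp⟩
  cls y hW hb := ⟨JRep.graph hW.1, hW.2⟩

theorem faithful_sub (k : ℕ) : Faithful BIso (WS k) :=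
  faithful_WS k target_K3.faithful (fun _ h => h)

end Pool.Agent.W889.SD
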