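import Pool.Agent.W889.SD.Sub

set_option autoImplicit false

/-! Forbidden subgraphs: combinatorics. -/

namespace Pool.Agent.W889.SD

open SimpleGraph

/-- infinitely many disjoint stars with infinitely many infinite legs -/
def spiders : SimpleGraph (ℕ × Option (ℕ × ℕ)) :=
  SimpleGraph.fromRel fun u v => u.1 = v.1 ∧
    ((u.2 = none ∧ ∃ l, v.2 = some (l, 0)) ∨ ∃ l d, u.2 = some (l, d) ∧ v.2 = some (l, d + 1))

section acyc

variable {V : Type} {H : SimpleGraph V}

theorem par_unique (hG : H.IsAcyclic) {c v u u' : V} (h : H.Adj u v) (h' : H.Adj u' v)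
    (hr : H.Reachable c v) (e : H.dist c v = H.dist c u + 1) (e' : H.dist c v = H.dist c u' + 1) :
    u = u' := by
  obtain ⟨p, hp⟩ := (hr.trans h.symm.reachable).exists_walk_length_eq_dist
  obtain ⟨q, hq⟩ := (hr.trans h'.symm.reachable).exists_walk_length_eq_dist
  have h1 : (p.concat h).IsPath := Walk.isPath_of_length_eq_dist _ (by
    rw [Walk.length_concat, hp, e])
  have h2 : (q.concat h').IsPath := Walk.isPath_of_length_eq_dist _ (by
    rw [Walk.length_concat, hq, e'])
  have h3 := (hG.subsingleton_path c v).elim ⟨_, h1⟩ ⟨_, h2⟩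
  have h4 := congrArg (fun w : H.Path c v => w.1.penultimate) h3
  simpa using h4

theorem par_exists {c v : V} (hr : H.Reachable c v) (hne : H.dist c v ≠ 0) :
    ∃ u, H.Adj u v ∧ H.dist c v = H.dist c u + 1 := by
  obtain ⟨p, hp⟩ := hr.exists_walk_length_eq_dist
  have hn : ¬ p.Nil := by
    intro h
    rw [Walk.nil_iff_length_eq] at h
    omega
  refine ⟨p.penultimate, p.adj_penultimate hn, ?_⟩
  have h1 : H.dist c p.penultimate ≤ p.dropLast.length := dist_le _
  have h2 : p.dropLast.length = p.length - 1 := by simp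
  have h3 : H.dist c v ≤ H.dist c p.penultimate + H.dist p.penultimate v :=
    (p.adj_penultimate hn).reachable.dist_triangle_right c
  have h4 : H.dist p.penultimate v = 1 := dist_eq_one_iff_adj.2 (p.adj_penultimate hn)
  omega

/-- An acyclic graph with at most one vertex of degree three in each component is a subgraph of
a disjoint union of subdivided stars. -/
theorem embed [Countable V] (hG : H.IsAcyclic)
    (hB : ∀ u v, H.Reachable u v → Big H.Adj u → Big H.Adj v → u = v) :
    ∃ f : V → ℕ × Option (ℕ × ℕ), Function.Injective f ∧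
      ∀ u v, H.Adj u v → spiders.Adj (f u) (f v) := by
  classical
  obtain ⟨g, hg⟩ := exists_injective_nat V
  have hcc : ∀ C : H.ConnectedComponent, ∃ c, H.connectedComponentMk c = C ∧
      ∀ u, H.connectedComponentMk u = C → Big H.Adj u → u = c := by
    intro C
    by_cases h : ∃ u, H.connectedComponentMk u = C ∧ Big H.Adj u
    · obtain ⟨c, h1, h2⟩ := h
      exact ⟨c, h1, fun u h3 h4 => hB u c (ConnectedComponent.exact (h3.trans h1.symm)) h4 h2⟩
    · obtain ⟨c, hc⟩ := C.exists_rep
      exact ⟨c, hc, fun u h3 h4 => absurd ⟨u, h3, h4⟩ h⟩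
  choose cc hc1 hc2 using hcc
  let c : V → V := fun v => cc (H.connectedComponentMk v)
  have hcr : ∀ v, H.Reachable (c v) v := fun v => ConnectedComponent.exact (hc1 _)
  have hca : ∀ u v, H.Reachable u v → c u = c v := fun u v h => by
    show cc _ = cc _
    rw [ConnectedComponent.sound h]
  let d : V → ℕ := fun v => H.dist (c v) v
  have hpar : ∀ v, ∃ u, d v ≠ 0 → H.Adj u v ∧ H.dist (c v) v = H.dist (c v) u + 1 := by
    intro v
    by_cases h : d v = 0
    · exact ⟨v, fun h' => absurd h h'⟩
    · obtain ⟨u, hu⟩ := par_exists (hcr v) h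
      exact ⟨u, fun _ => hu⟩
  choose par hp using hpar
  have hpc : ∀ v, d v ≠ 0 → c (par v) = c v := fun v h => hca _ _ (hp v h).1.reachable
  have hpd : ∀ v, d v ≠ 0 → d v = d (par v) + 1 := by
    intro v h
    show H.dist (c v) v = H.dist (c (par v)) (par v) + 1
    rw [hpc v h]
    exact (hp v h).2
  have hpu : ∀ u v, H.Adj u v → d v = d u + 1 → u = par v := by
    intro u v h h1
    have h0 : d v ≠ 0 := by omega
    refine par_unique hG h (hp v h0).1 (hcr v) ?_ (hp v h0).2
    have : c u = c v := hca _ _ h.reachable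
    have h2 : H.dist (c v) v = H.dist (c u) u + 1 := h1
    rw [this] at h2
    exact h2
  have hd0 : ∀ v, d v = 0 → v = c v := by
    intro v h
    exact ((hcr v).dist_eq_zero_iff.1 h).symm
  let leg : V → V := fun v => par^[d v - 1] v
  have hleg : ∀ v, d v ≠ 0 → d (par v) ≠ 0 → leg (par v) = leg v := by
    intro v h h'
    have h1 := hpd v h
    show par^[d (par v) - 1] (par v) = par^[d v - 1] v
    have : d v - 1 = (d (par v) - 1) + 1 := by omega
    rw [this]
    rfl
  have key : ∀ n u v, d u = n + 1 → d v = n + 1 → c u = c v → leg u = leg v → u = v := by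
    intro n
    induction n with
    | zero =>
      intro u v h1 h2 _ h3
      have e1 : leg u = u := by
        show par^[d u - 1] u = u
        rw [h1]
        rfl
      have e2 : leg v = v := by
        show par^[d v - 1] v = v
        rw [h2]
        rfl
      rw [← e1, ← e2, h3]
    | succ n ih =>
      intro u v h1 h2 h3 h4
      have k1 : d u ≠ 0 := by omega
      have k2 : d v ≠ 0 := by omega
      have l1 := hpd u k1
      have l2 := hpd v k2
      have m1 : d (par u) ≠ 0 := by omega
      have m2 : d (par v) ≠ 0 := by omega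
      have h5 : par u = par v := ih (par u) (par v) (by omega) (by omega)
        (by rw [hpc u k1, hpc v k2, h3]) (by rw [hleg u k1 m1, hleg v k2 m2, h4])
      by_contra hne
      have hbig : Big H.Adj (par u) := by
        refine ⟨u, v, par (par u), hne, ?_, ?_, (hp u k1).1, ?_, (hp (par u) m1).1.symm⟩
        · intro e
          have := hpd (par u) m1
          rw [← e] at this
          omega
        · intro e
          have := hpd (par u) m1
          rw [← e] at this
          omega
        · rw [h5]
          exact (hp v k2).1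
      have h6 : par u = c (par u) := hc2 _ _ rfl hbig
      apply m1
      show H.dist (c (par u)) (par u) = 0
      rw [← h6]
      exact dist_self
  let f : V → ℕ × Option (ℕ × ℕ) := fun v =>
    (g (c v), if d v = 0 then none else some (g (leg v), d v - 1))
  have f0 : ∀ v, d v = 0 → f v = (g (c v), none) := fun v h => by
    show (g (c v), if d v = 0 then none else some (g (leg v), d v - 1)) = _
    rw [if_pos h]
  have f1 : ∀ v, d v ≠ 0 → f v = (g (c v), some (g (leg v), d v - 1)) := fun v h => by
    show (g (c v), if d v = 0 then none else some (g (leg v), d v - 1)) = _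
    rw [if_neg h]
  refine ⟨f, ?_, ?_⟩
  · intro u v huv
    by_cases h1 : d u = 0 <;> by_cases h2 : d v = 0
    · rw [f0 u h1, f0 v h2] at huv
      rw [hd0 u h1, hd0 v h2]
      exact hg (Prod.mk.inj huv).1
    · rw [f0 u h1, f1 v h2] at huv
      exact absurd (Prod.mk.inj huv).2 (by simp)
    · rw [f1 u h1, f0 v h2] at huv
      exact absurd (Prod.mk.inj huv).2 (by simp)
    · rw [f1 u h1, f1 v h2] at huv
      have h3 := Prod.mk.inj huv
      have h4 := Prod.mk.inj (Option.some.inj h3.2)
      exact key (d u - 1) u v (by omega) (by omega) (hg h3.1) (hg h4.1)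
  · have half : ∀ u v, H.Adj u v → d v = d u + 1 → spiders.Adj (f u) (f v) := by
      intro u v h h1
      have h2 : d v ≠ 0 := by omega
      have h3 : c u = c v := hca _ _ h.reachable
      have h4 := hpu u v h h1
      unfold spiders
      rw [SimpleGraph.fromRel_adj]
      rw [f1 v h2]
      by_cases h5 : d u = 0
      · rw [f0 u h5]
        refine ⟨by simp, Or.inl ⟨by rw [h3], Or.inl ⟨rfl, g (leg v), ?_⟩⟩⟩
        have : d v - 1 = 0 := by omega
        rw [this]
      · rw [f1 u h5]
        refine ⟨?_, Or.inl ⟨by rw [h3], Or.inr ⟨g (leg v), d u - 1, ?_, ?_⟩⟩⟩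
        · intro e
          have := Prod.mk.inj (Option.some.inj (Prod.mk.inj e).2)
          omega
        · rw [h4, hleg v h2 (by rw [← h4]; exact h5)]
        · have : d v - 1 = d u - 1 + 1 := by omega
          rw [this]
    intro u v h
    have h3 : c u = c v := hca _ _ h.reachable
    rcases hG.dist_eq_dist_add_one_of_adj_of_reachable (c u) h (hcr u) with h1 | h1
    · refine (half v u h.symm ?_).symm
      show H.dist (c u) u = H.dist (c v) v + 1
      rw [← h3]
      exact h1
    · refine half u v h ?_
      show H.dist (c v) v = H.dist (c u) u + 1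
      rw [← h3]
      exact h1

end acyc

section sub

variable {T : Type} {k : ℕ} {y : T → T → Prop}

/-- A finite set in which every element has two neighbours contains a whole path. -/
theorem core_card (hy : Subd k y) (S : Finset T) (hS : S.Nonempty)
    (h : ∀ u ∈ S, ∃ a ∈ S, ∃ b ∈ S, a ≠ b ∧ y u a ∧ y u b) : k + 1 ≤ S.card := by
  classical
  -- a vertex on a path
  obtain ⟨w, p, w', i, hp, hi⟩ : ∃ w p w' i, Pth k y w p w' ∧ p i ∈ S := by
    obtain ⟨u, hu⟩ := hS
    obtain ⟨a, ha, b, -, -, h1, -⟩ := h u hu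
    have key : ∀ u ∈ S, ¬ Big y u → (∃ v, y u v) →
        ∃ w p w' i, Pth k y w p w' ∧ p i ∈ S := by
      rintro u hu hb ⟨v, hv⟩
      rcases hy.cov u hb with h' | ⟨w, p, w', i, h', rfl⟩
      · exact absurd hv (h' v)
      · exact ⟨w, p, w', i, h', hu⟩
    by_cases hb : Big y u
    · exact key a ha (fun h' => hy.indep u a hb h' h1) ⟨u, hy.symm _ _ h1⟩
    · exact key u hu hb ⟨a, h1⟩
  have up : ∀ i j : Fin (k + 1), (j : ℕ) = i + 1 → p i ∈ S → p j ∈ S := by
    intro i j hij hi
    obtain ⟨a, ha, b, hb, hne, h1, h2⟩ := h _ hi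
    have key : ∀ a ∈ S, y (p i) a → p j ∈ S ∨ ((a = w ∧ (i : ℕ) = 0) ∨
        ∃ j' : Fin (k + 1), a = p j' ∧ (i : ℕ) = j' + 1) := by
      intro a ha h1
      rcases hy.cl w p w' i a hp h1 with ⟨h3, h4⟩ | ⟨h3, h4⟩ | ⟨j', h3, h4 | h4⟩
      · exact Or.inr (Or.inl ⟨h3, h4⟩)
      · omega
      · left
        have : j' = j := Fin.ext (by omega)
        rw [← this, ← h3]
        exact ha
      · exact Or.inr (Or.inr ⟨j', h3, h4⟩)
    rcases key a ha h1 with h3 | h3
    · exact h3
    rcases key b hb h2 with h4 | h4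
    · exact h4
    exfalso
    rcases h3 with ⟨h3, h5⟩ | ⟨j1, h3, h5⟩ <;> rcases h4 with ⟨h4, h6⟩ | ⟨j2, h4, h6⟩
    · exact hne (h3.trans h4.symm)
    · omega
    · omega
    · have : j1 = j2 := Fin.ext (by omega)
      exact hne (by rw [h3, h4, this])
  have down : ∀ i j : Fin (k + 1), (i : ℕ) = j + 1 → p i ∈ S → p j ∈ S := by
    intro i j hij hi
    obtain ⟨a, ha, b, hb, hne, h1, h2⟩ := h _ hi
    have key : ∀ a ∈ S, y (p i) a → p j ∈ S ∨ ((a = w' ∧ (i : ℕ) = k) ∨
        ∃ j' : Fin (k + 1), a = p j' ∧ (j' : ℕ) = i + 1) := by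
      intro a ha h1
      rcases hy.cl w p w' i a hp h1 with ⟨h3, h4⟩ | ⟨h3, h4⟩ | ⟨j', h3, h4 | h4⟩
      · omega
      · exact Or.inr (Or.inl ⟨h3, h4⟩)
      · exact Or.inr (Or.inr ⟨j', h3, h4⟩)
      · left
        have : j' = j := Fin.ext (by omega)
        rw [← this, ← h3]
        exact ha
    rcases key a ha h1 with h3 | h3
    · exact h3
    rcases key b hb h2 with h4 | h4
    · exact h4
    exfalso
    rcases h3 with ⟨h3, h5⟩ | ⟨j1, h3, h5⟩ <;> rcases h4 with ⟨h4, h6⟩ | ⟨j2, h4, h6⟩
    · exact hne (h3.trans h4.symm)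
    · have := j2.2
      omega
    · have := j1.2
      omega
    · have : j1 = j2 := Fin.ext (by omega)
      exact hne (by rw [h3, h4, this])
  have hup : ∀ n (hn : (i : ℕ) + n < k + 1), p ⟨i + n, hn⟩ ∈ S := by
    intro n
    induction n with
    | zero => exact fun _ => hi
    | succ n ih => exact fun hn => up ⟨i + n, by omega⟩ _ rfl (ih (by omega))
  have hdn : ∀ n, n ≤ (i : ℕ) → ∀ hn : (i : ℕ) - n < k + 1, p ⟨i - n, hn⟩ ∈ S := by
    intro n
    induction n with
    | zero => exact fun _ _ => hi
    | succ n ih =>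
      intro hle hn
      exact down ⟨i - n, by omega⟩ _ (by show (i : ℕ) - n = i - (n + 1) + 1; omega)
        (ih (by omega) (by omega))
  have hall : ∀ j, p j ∈ S := by
    intro j
    rcases le_total (i : ℕ) j with h1 | h1
    · have := hup (j - i) (by omega)
      have e : (⟨i + (j - i), by omega⟩ : Fin (k + 1)) = j := Fin.ext (by simp; omega)
      rwa [e] at this
    · have := hdn (i - j) (by omega) (by omega)
      have e : (⟨i - (i - j), by omega⟩ : Fin (k + 1)) = j := Fin.ext (by simp; omega)
      rwa [e] at this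
  calc k + 1 = (Finset.univ.image p).card := by
        rw [Finset.card_image_of_injective _ hp.inj, Finset.card_univ, Fintype.card_fin]
    _ ≤ S.card := Finset.card_le_card (fun x hx => by
        rw [Finset.mem_image] at hx
        obtain ⟨j, -, rfl⟩ := hx
        exact hall j)

/-- vertices near a big vertex -/
def Near (k : ℕ) (y : T → T → Prop) (w : T) (n : ℕ) (u : T) : Prop :=
  u = w ∨ ∃ p w', ∃ i : Fin (k + 1), Pth k y w p w' ∧ p i = u ∧ (i : ℕ) + 1 ≤ n

theorem near_step (hy : Subd k y) {w u v : T} {n : ℕ} (hw : Big y w) (hn : n ≤ k)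
    (h : Near k y w n u) (huv : y u v) : Near k y w (n + 1) v := by
  rcases h with rfl | ⟨p, w', i, h1, rfl, h2⟩
  · -- `u` is the big vertex
    have hv : ¬ Big y v := fun h => hy.indep _ _ hw h huv
    rcases hy.cov v hv with h' | ⟨w1, p, w2, i, h', rfl⟩
    · exact absurd (hy.symm _ _ huv) (h' _)
    · rcases hy.cl w1 p w2 i u h' (hy.symm _ _ huv) with ⟨h3, h4⟩ | ⟨h3, h4⟩ | ⟨j, h3, h4⟩
      · subst h3
        exact Or.inr ⟨p, w2, i, h', rfl, by omega⟩
      · subst h3
        refine Or.inr ⟨_, w1, i.rev, h'.rev hy.symm, ?_, ?_⟩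
        · show p i.rev.rev = p i
          rw [Fin.rev_rev]
        · rw [Fin.val_rev]
          omega
      · exact absurd (h3 ▸ hw) (h'.nb j)
  · rcases hy.cl w p w' i v h1 huv with ⟨h3, h4⟩ | ⟨h3, h4⟩ | ⟨j, h3, h4⟩
    · exact Or.inl h3
    · omega
    · exact Or.inr ⟨p, w', j, h1, h3.symm, by omega⟩

theorem near_big {w v : T} {n : ℕ} (h : Near k y w n v) (hv : Big y v) : v = w := by
  rcases h with h | ⟨p, w', i, h1, rfl, -⟩
  · exact h
  · exact absurd hv (h1.nb i)

/-- A graph that is not a subgraph of a disjoint union of subdivided stars is not a subgraph of a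
graph all of whose edges are subdivided often enough. -/
theorem avoid {V : Type} [Countable V] (H : SimpleGraph V)
    (hH : ¬ ∃ f : V → ℕ × Option (ℕ × ℕ), Function.Injective f ∧
      ∀ u v, H.Adj u v → spiders.Adj (f u) (f v)) :
    ∃ m, ∀ k, m ≤ k → ∀ (T : Type) (y : T → T → Prop), Subd k y →
      ¬ ∃ f : V → T, Function.Injective f ∧ ∀ u v, H.Adj u v → y (f u) (f v) := by
  classical
  by_cases hG : H.IsAcyclic
  · by_cases hB : ∀ u v, H.Reachable u v → Big H.Adj u → Big H.Adj v → u = v
    · exact absurd (embed hG hB) hH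
    · push Not at hB
      obtain ⟨u, v, ⟨q⟩, hu, hv, hne⟩ := hB
      refine ⟨q.length, fun k hk T y hy => ?_⟩
      rintro ⟨f, hf, hf'⟩
      have big : ∀ u, Big H.Adj u → Big y (f u) := by
        rintro u ⟨a, b, c, h1, h2, h3, h4, h5, h6⟩
        exact ⟨f a, f b, f c, fun h => h1 (hf h), fun h => h2 (hf h), fun h => h3 (hf h),
          hf' _ _ h4, hf' _ _ h5, hf' _ _ h6⟩
      have walk : ∀ (a b : V) (q : H.Walk a b) (n : ℕ), n + q.length ≤ k + 1 →
          Near k y (f u) n (f a) → Near k y (f u) (n + q.length) (f b) := by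
        intro a b q
        induction q with
        | nil => exact fun n _ h => h
        | @cons a b c h q ih =>
          intro n hn hnear
          rw [Walk.length_cons] at hn ⊢
          have h1 := near_step hy (big u hu) (by omega) hnear (hf' _ _ h)
          have h2 := ih (n + 1) (by omega) h1
          have e : n + (q.length + 1) = n + 1 + q.length := by omega
          rw [e]
          exact h2
      have := walk u v q 0 (by omega) (Or.inl rfl)
      exact hne (hf (near_big this (big v hv))).symm
  · have hcyc : ∃ (v : V) (c : H.Walk v v), c.IsCycle := by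
      by_contra hcon
      push Not at hcon
      exact hG fun v c => hcon v c
    obtain ⟨v, c, hc⟩ := hcyc
    refine ⟨c.support.toFinset.card, fun k hk T y hy => ?_⟩
    rintro ⟨f, hf, hf'⟩
    have h1 := core_card hy (c.support.toFinset.image f) ⟨f v, by
      rw [Finset.mem_image]
      exact ⟨v, by simp, rfl⟩⟩ (by
      intro u hu
      rw [Finset.mem_image] at hu
      obtain ⟨u, hu, rfl⟩ := hu
      rw [List.mem_toFinset] at hu
      have h2 := hc.ncard_neighborSet_toSubgraph_eq_two hu
      obtain ⟨a, b, hab, he⟩ := Set.ncard_eq_two.1 h2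
      have ha : c.toSubgraph.Adj u a := by
        have : a ∈ c.toSubgraph.neighborSet u := by rw [he]; simp
        exact this
      have hb : c.toSubgraph.Adj u b := by
        have : b ∈ c.toSubgraph.neighborSet u := by rw [he]; simp
        exact this
      have mem : ∀ a, c.toSubgraph.Adj u a → f a ∈ c.support.toFinset.image f := by
        intro a ha
        rw [Finset.mem_image]
        refine ⟨a, ?_, rfl⟩
        rw [List.mem_toFinset]
        exact (Walk.mem_verts_toSubgraph c).1 (c.toSubgraph.edge_vert ha.symm)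
      exact ⟨f a, mem a ha, f b, mem b hb, fun h => hab (hf h), hf' _ _ ha.adj_sub,
        hf' _ _ hb.adj_sub⟩)
    have h2 : (c.support.toFinset.image f).card ≤ c.support.toFinset.card :=
      Finset.card_image_le
    omega

end sub

end Pool.Agent.W889.SD
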