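import Pool.Agent.W889.SD.Sub

set_option autoImplicit false

/-! The subdivision of a graph. -/

namespace Pool.Agent.W889.SD

open Set
open Pool.Agent.W889.VC

/-- vertices and places on edges -/
abbrev Tk (k : ℕ) : Type := ℕ ⊕ (ℕ × ℕ × Fin (k + 1))

/-- an end of an edge -/
def EE (k : ℕ) (x : ℕ → ℕ → Prop) (u a b : ℕ) (i : Fin (k + 1)) : Prop :=
  a < b ∧ x a b ∧ ((u = a ∧ (i : ℕ) = 0) ∨ (u = b ∧ (i : ℕ) = k))

/-- the subdivided graph -/
def sub (k : ℕ) (x : ℕ → ℕ → Prop) : Tk k → Tk k → Prop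
  | Sum.inl _, Sum.inl _ => False
  | Sum.inl u, Sum.inr (a, b, i) => EE k x u a b i
  | Sum.inr (a, b, i), Sum.inl u => EE k x u a b i
  | Sum.inr (a, b, i), Sum.inr (a', b', j) =>
    a < b ∧ x a b ∧ a' = a ∧ b' = b ∧ ((j : ℕ) = i + 1 ∨ (i : ℕ) = j + 1)

variable {k : ℕ} {x : ℕ → ℕ → Prop}

theorem sub_symm (u v : Tk k) (h : sub k x u v) : sub k x v u := by
  rcases u with u | ⟨a, b, i⟩ <;> rcases v with v | ⟨a', b', j⟩
  · exact h
  · exact h
  · exact h
  · obtain ⟨h1, h2, rfl, rfl, h3⟩ := h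
    exact ⟨h1, h2, rfl, rfl, h3.symm⟩

theorem sub_irrefl (u : Tk k) : ¬ sub k x u u := by
  rcases u with u | ⟨a, b, i⟩
  · exact fun h => h
  · rintro ⟨-, -, -, -, h | h⟩ <;> omega

theorem big_inl (hs : ∀ u v, x u v → x v u) (hi : ∀ u, ¬ x u u) (hb : ∀ u, Big x u) (u : ℕ) :
    Big (sub k x) (Sum.inl u) := by
  obtain ⟨a, b, c, h1, h2, h3, h4, h5, h6⟩ := hb u
  let f : ℕ → Tk k := fun a => if u < a then Sum.inr (u, a, 0) else Sum.inr (a, u, Fin.last k)
  have hf : ∀ a, x u a → sub k x (Sum.inl u) (f a) := by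
    intro a ha
    by_cases h : u < a
    · have : f a = Sum.inr (u, a, 0) := if_pos h
      rw [this]
      exact ⟨h, ha, Or.inl ⟨rfl, rfl⟩⟩
    · have : f a = Sum.inr (a, u, Fin.last k) := if_neg h
      rw [this]
      have hne : a ≠ u := fun e => hi u (by rw [e] at ha; exact ha)
      exact ⟨by omega, hs _ _ ha, Or.inr ⟨rfl, rfl⟩⟩
  have hinj : ∀ a b, x u a → x u b → f a = f b → a = b := by
    intro a b ha hb hab
    have hne : a ≠ u := fun e => hi u (by rw [e] at ha; exact ha)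
    have hne' : b ≠ u := fun e => hi u (by rw [e] at hb; exact hb)
    by_cases h : u < a <;> by_cases h' : u < b
    · simp only [f, if_pos h, if_pos h', Sum.inr.injEq, Prod.mk.injEq] at hab
      exact hab.2.1
    · simp only [f, if_pos h, if_neg h', Sum.inr.injEq, Prod.mk.injEq] at hab
      exact absurd hab.1.symm hne'
    · simp only [f, if_neg h, if_pos h', Sum.inr.injEq, Prod.mk.injEq] at hab
      exact absurd hab.1 hne
    · simp only [f, if_neg h, if_neg h', Sum.inr.injEq, Prod.mk.injEq] at hab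
      exact hab.1
  exact ⟨f a, f b, f c, fun h => h1 (hinj _ _ h4 h5 h), fun h => h2 (hinj _ _ h4 h6 h),
    fun h => h3 (hinj _ _ h5 h6 h), hf a h4, hf b h5, hf c h6⟩

theorem not_big_inr (t : ℕ × ℕ × Fin (k + 1)) : ¬ Big (sub k x) (Sum.inr t) := by
  obtain ⟨a, b, i⟩ := t
  let prev : Tk k := if (i : ℕ) = 0 then Sum.inl a else Sum.inr (a, b, ⟨i - 1, by omega⟩)
  let next : Tk k := if h : (i : ℕ) = k then Sum.inl b else Sum.inr (a, b, ⟨i + 1, by omega⟩)
  have key : ∀ v, sub k x (Sum.inr (a, b, i)) v → v = prev ∨ v = next := by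
    rintro (v | ⟨a', b', j⟩) h
    · obtain ⟨-, -, ⟨rfl, h1⟩ | ⟨rfl, h1⟩⟩ := h
      · exact Or.inl (if_pos h1).symm
      · right
        have h2 : next = Sum.inl v := dif_pos h1
        exact h2.symm
    · obtain ⟨-, -, rfl, rfl, h1 | h1⟩ := h
      · right
        have : ¬ (i : ℕ) = k := by omega
        have h2 : next = Sum.inr (a', b', ⟨i + 1, by omega⟩) := dif_neg this
        rw [h2]
        congr 3
        apply Fin.ext
        exact h1
      · left
        have : ¬ (i : ℕ) = 0 := by omega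
        have h2 : prev = Sum.inr (a', b', ⟨i - 1, by omega⟩) := if_neg this
        rw [h2]
        congr 3
        apply Fin.ext
        show (j : ℕ) = i - 1
        omega
  rintro ⟨u, v, w, h1, h2, h3, h4, h5, h6⟩
  rcases key u h4 with e1 | e1 <;> rcases key v h5 with e2 | e2 <;>
    rcases key w h6 with e3 | e3
  · exact h1 (e1.trans e2.symm)
  · exact h1 (e1.trans e2.symm)
  · exact h2 (e1.trans e3.symm)
  · exact h3 (e2.trans e3.symm)
  · exact h3 (e2.trans e3.symm)
  · exact h2 (e1.trans e3.symm)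
  · exact h1 (e1.trans e2.symm)
  · exact h1 (e1.trans e2.symm)

section

variable (hs : ∀ u v, x u v → x v u) (hi : ∀ u, ¬ x u u) (hb : ∀ u, Big x u)

include hs hi hb

theorem pth_edge {a b : ℕ} (h : a < b) (hx : x a b) :
    Pth k (sub k x) (Sum.inl a) (fun i => Sum.inr (a, b, i)) (Sum.inl b) where
  bw := big_inl hs hi hb a
  bw' := big_inl hs hi hb b
  ne := fun e => by
    have := Sum.inl.inj e
    omega
  inj := fun i j hij => by
    simp only [Sum.inr.injEq, Prod.mk.injEq] at hij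
    exact hij.2.2
  nb := fun i => not_big_inr _
  st := fun i hi => ⟨h, hx, Or.inl ⟨rfl, hi⟩⟩
  mid := fun i j hij => ⟨h, hx, rfl, rfl, Or.inl hij⟩
  en := fun i hi => ⟨h, hx, Or.inr ⟨rfl, hi⟩⟩

theorem pth_cls {w w' : Tk k} {p : Fin (k + 1) → Tk k} (h : Pth k (sub k x) w p w') :
    ∃ a b, a < b ∧ x a b ∧
      ((w = Sum.inl a ∧ w' = Sum.inl b ∧ ∀ i, p i = Sum.inr (a, b, i)) ∨
      (w = Sum.inl b ∧ w' = Sum.inl a ∧ ∀ i, p i = Sum.inr (a, b, i.rev))) := by
  have hinl : ∀ t, Big (sub k x) t → ∃ u, t = Sum.inl u := by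
    rintro (u | t) ht
    · exact ⟨u, rfl⟩
    · exact absurd ht (not_big_inr t)
  obtain ⟨u, rfl⟩ := hinl w h.bw
  obtain ⟨u', rfl⟩ := hinl w' h.bw'
  have hp : ∀ i, ∃ a b j, p i = Sum.inr (a, b, j) := by
    intro i
    rcases hpi : p i with v | ⟨a, b, j⟩
    · exact absurd (big_inl hs hi hb v) (hpi ▸ h.nb i)
    · exact ⟨a, b, j, rfl⟩
  obtain ⟨a, b, j0, hj0⟩ := hp 0
  have h0 := h.st 0 rfl
  rw [hj0] at h0
  obtain ⟨hab, hxab, hcase⟩ := h0
  refine ⟨a, b, hab, hxab, ?_⟩
  have hend : ∀ i : Fin (k + 1), (i : ℕ) = k → ∀ j, p i = Sum.inr (a, b, j) →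
      (u' = a ∧ (j : ℕ) = 0) ∨ (u' = b ∧ (j : ℕ) = k) := by
    intro i hi j hj
    have := h.en i hi
    rw [hj] at this
    exact this.2.2
  rcases hcase with ⟨rfl, h1⟩ | ⟨rfl, h1⟩
  · left
    have key : ∀ n (hn : n < k + 1), p ⟨n, hn⟩ = Sum.inr (u, b, ⟨n, hn⟩) := by
      intro n
      induction n using Nat.strong_induction_on with
      | _ n ih =>
        intro hn
        rcases Nat.eq_zero_or_pos n with rfl | hpos
        · have : p ⟨0, hn⟩ = p 0 := rfl
          rw [this, hj0]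
          congr 3
          exact Fin.ext h1
        · obtain ⟨m, rfl⟩ : ∃ m, n = m + 1 := ⟨n - 1, by omega⟩
          have h2 := ih m (by omega) (by omega)
          have h3 := h.mid ⟨m, by omega⟩ ⟨m + 1, hn⟩ rfl
          obtain ⟨a', b', j, hj⟩ := hp ⟨m + 1, hn⟩
          rw [h2, hj] at h3
          obtain ⟨-, -, rfl, rfl, h4 | h4⟩ := h3
          · rw [hj]
            congr 3
            exact Fin.ext h4
          · exfalso
            have h5 := ih j (by simp at h4; omega) j.2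
            have h6 := h.inj (h5.trans hj.symm)
            have := congrArg Fin.val h6
            simp at this h4
            omega
    have hu : u' = b := by
      rcases hend (Fin.last k) rfl _ (key k (by omega)) with ⟨h2, -⟩ | ⟨h2, -⟩
      · exact absurd (by rw [h2]) h.ne
      · exact h2
    exact ⟨rfl, by rw [hu], fun i => key i i.2⟩
  · right
    have key : ∀ n (hn : n < k + 1), p ⟨n, hn⟩ = Sum.inr (a, u, (⟨n, hn⟩ : Fin (k + 1)).rev) := by
      intro n
      induction n using Nat.strong_induction_on with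
      | _ n ih =>
        intro hn
        rcases Nat.eq_zero_or_pos n with rfl | hpos
        · have : p ⟨0, hn⟩ = p 0 := rfl
          rw [this, hj0]
          congr 3
          apply Fin.ext
          rw [Fin.val_rev, h1]
          simp
        · obtain ⟨m, rfl⟩ : ∃ m, n = m + 1 := ⟨n - 1, by omega⟩
          have h2 := ih m (by omega) (by omega)
          have h3 := h.mid ⟨m, by omega⟩ ⟨m + 1, hn⟩ rfl
          obtain ⟨a', b', j, hj⟩ := hp ⟨m + 1, hn⟩
          rw [h2, hj] at h3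
          obtain ⟨-, -, rfl, rfl, h4 | h4⟩ := h3
          · exfalso
            rw [Fin.val_rev] at h4
            have h4' : (j : ℕ) = k - m + 1 := by
              simp at h4
              omega
            have h5 := ih (k - j) (by omega) (by omega)
            have h7 : (⟨k - j, by omega⟩ : Fin (k + 1)).rev = j := by
              apply Fin.ext
              rw [Fin.val_rev]
              simp
              omega
            rw [h7] at h5
            have h6 := h.inj (h5.trans hj.symm)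
            have := congrArg Fin.val h6
            simp at this
            omega
          · rw [hj]
            congr 3
            apply Fin.ext
            rw [Fin.val_rev] at h4 ⊢
            simp at h4 ⊢
            omega
    have hu : u' = a := by
      rcases hend (Fin.last k) rfl _ (key k (by omega)) with ⟨h2, -⟩ | ⟨h2, -⟩
      · exact h2
      · exact absurd (by rw [h2]) h.ne
    exact ⟨rfl, by rw [hu], fun i => key i i.2⟩

theorem sub_subd : Subd k (sub k x) where
  irrefl := sub_irrefl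
  symm := sub_symm
  indep := by
    rintro (u | t) (v | t') h1 h2
    · exact fun h => h
    · exact absurd h2 (not_big_inr t')
    · exact absurd h1 (not_big_inr t)
    · exact absurd h1 (not_big_inr t)
  cov := by
    rintro (u | ⟨a, b, i⟩) h
    · exact absurd (big_inl hs hi hb u) h
    · by_cases hab : a < b ∧ x a b
      · exact Or.inr ⟨_, _, _, i, pth_edge hs hi hb hab.1 hab.2, rfl⟩
      · left
        rintro (v | ⟨a', b', j⟩) h'
        · exact hab ⟨h'.1, h'.2.1⟩
        · exact hab ⟨h'.1, h'.2.1⟩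
  uq := by
    intro w p w' q h1 h2
    obtain ⟨a, b, h3, h4, h5⟩ := pth_cls hs hi hb h1
    obtain ⟨a', b', h3', h4', h5'⟩ := pth_cls hs hi hb h2
    rcases h5 with ⟨rfl, rfl, h6⟩ | ⟨rfl, rfl, h6⟩ <;>
      rcases h5' with ⟨e1, e2, h6'⟩ | ⟨e1, e2, h6'⟩
    · have e1' := Sum.inl.inj e1
      have e2' := Sum.inl.inj e2
      subst e1' e2'
      funext i
      rw [h6, h6']
    · have e1' := Sum.inl.inj e1
      have e2' := Sum.inl.inj e2
      omega
    · have e1' := Sum.inl.inj e1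
      have e2' := Sum.inl.inj e2
      omega
    · have e1' := Sum.inl.inj e1
      have e2' := Sum.inl.inj e2
      subst e1' e2'
      funext i
      rw [h6, h6']
  uniq := by
    intro w p w' v q v' i j h1 h2 hpq
    obtain ⟨a, b, h3, h4, h5⟩ := pth_cls hs hi hb h1
    obtain ⟨a', b', h3', h4', h5'⟩ := pth_cls hs hi hb h2
    rcases h5 with ⟨rfl, rfl, h6⟩ | ⟨rfl, rfl, h6⟩ <;>
      rcases h5' with ⟨rfl, rfl, h6'⟩ | ⟨rfl, rfl, h6'⟩
    · rw [h6, h6'] at hpq
      simp only [Sum.inr.injEq, Prod.mk.injEq] at hpq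
      obtain ⟨rfl, rfl, rfl⟩ := hpq
      exact Or.inl ⟨rfl, rfl, rfl⟩
    · rw [h6, h6'] at hpq
      simp only [Sum.inr.injEq, Prod.mk.injEq] at hpq
      obtain ⟨rfl, rfl, rfl⟩ := hpq
      refine Or.inr ⟨rfl, rfl, ?_⟩
      rw [Fin.val_rev]
      omega
    · rw [h6, h6'] at hpq
      simp only [Sum.inr.injEq, Prod.mk.injEq] at hpq
      obtain ⟨rfl, rfl, rfl⟩ := hpq
      refine Or.inr ⟨rfl, rfl, ?_⟩
      rw [Fin.val_rev]
      omega
    · rw [h6, h6'] at hpq
      simp only [Sum.inr.injEq, Prod.mk.injEq] at hpq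
      obtain ⟨rfl, rfl, h7⟩ := hpq
      exact Or.inl ⟨rfl, rfl, (Fin.rev_injective h7).symm⟩
  cl := by
    intro w p w' i u h1 h2
    obtain ⟨a, b, h3, h4, h5⟩ := pth_cls hs hi hb h1
    rcases h5 with ⟨rfl, rfl, h6⟩ | ⟨rfl, rfl, h6⟩
    · rw [h6] at h2
      rcases u with u | ⟨a', b', j⟩
      · obtain ⟨-, -, ⟨rfl, h7⟩ | ⟨rfl, h7⟩⟩ := h2
        · exact Or.inl ⟨rfl, h7⟩
        · exact Or.inr (Or.inl ⟨rfl, h7⟩)
      · obtain ⟨-, -, rfl, rfl, h7⟩ := h2
        exact Or.inr (Or.inr ⟨j, (h6 j).symm, h7⟩)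
    · rw [h6] at h2
      rcases u with u | ⟨a', b', j⟩
      · obtain ⟨-, -, ⟨rfl, h7⟩ | ⟨rfl, h7⟩⟩ := h2
        · rw [Fin.val_rev] at h7
          exact Or.inr (Or.inl ⟨rfl, by omega⟩)
        · rw [Fin.val_rev] at h7
          exact Or.inl ⟨rfl, by omega⟩
      · obtain ⟨-, -, rfl, rfl, h7⟩ := h2
        refine Or.inr (Or.inr ⟨j.rev, ?_, ?_⟩)
        · rw [h6, Fin.rev_rev]
        · rw [Fin.val_rev] at h7 ⊢
          omega

theorem adj_inl (u v : ℕ) : Adj' k (sub k x) (Sum.inl u) (Sum.inl v) ↔ x u v := by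
  constructor
  · rintro ⟨p, hp⟩
    obtain ⟨a, b, h1, h2, ⟨h3, h4, -⟩ | ⟨h3, h4, -⟩⟩ := pth_cls hs hi hb hp
    · rw [Sum.inl.inj h3, Sum.inl.inj h4]
      exact h2
    · rw [Sum.inl.inj h3, Sum.inl.inj h4]
      exact hs _ _ h2
  · intro h
    have hne : u ≠ v := fun e => hi u (by rw [← e] at h; exact h)
    rcases lt_or_gt_of_ne hne with h1 | h1
    · exact ⟨_, pth_edge hs hi hb h1 h⟩
    · exact ⟨_, (pth_edge hs hi hb h1 (hs _ _ h)).rev sub_symm⟩

end

end Pool.Agent.W889.SD
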