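import Pool.Agent.W889.SD.Enum

set_option autoImplicit false

/-! Graphs in which every edge of some graph is subdivided `k+1` times. -/

namespace Pool.Agent.W889.SD

open Set
open Pool.Agent.W889.VC

section gen

variable {T : Type}

/-- at least three neighbours -/
def Big (y : T → T → Prop) (u : T) : Prop :=
  ∃ a b c, a ≠ b ∧ a ≠ c ∧ b ≠ c ∧ y u a ∧ y u b ∧ y u c

/-- a path with `k+1` inner vertices, none of them big, between big vertices -/
structure Pth (k : ℕ) (y : T → T → Prop) (w : T) (p : Fin (k + 1) → T) (w' : T) : Prop where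
  bw : Big y w
  bw' : Big y w'
  ne : w ≠ w'
  inj : Function.Injective p
  nb : ∀ i, ¬ Big y (p i)
  st : ∀ i : Fin (k + 1), (i : ℕ) = 0 → y w (p i)
  mid : ∀ i j : Fin (k + 1), (j : ℕ) = i + 1 → y (p i) (p j)
  en : ∀ i : Fin (k + 1), (i : ℕ) = k → y (p i) w'

/-- a graph with every edge subdivided `k+1` times, and infinitely many isolated vertices -/
structure Subd (k : ℕ) (y : T → T → Prop) : Prop where
  irrefl : ∀ u, ¬ y u u
  symm : ∀ u v, y u v → y v u
  indep : ∀ u v, Big y u → Big y v → ¬ y u v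
  cov : ∀ u, ¬ Big y u → (∀ v, ¬ y u v) ∨ ∃ w p w' i, Pth k y w p w' ∧ p i = u
  uq : ∀ w p w' q, Pth k y w p w' → Pth k y w q w' → p = q
  uniq : ∀ w p w' v q v' i j, Pth k y w p w' → Pth k y v q v' → p i = q j →
    (v = w ∧ v' = w' ∧ j = i) ∨ (v = w' ∧ v' = w ∧ (i : ℕ) + j = k)
  cl : ∀ w p w' (i : Fin (k + 1)) u, Pth k y w p w' → y (p i) u →
    (u = w ∧ (i : ℕ) = 0) ∨ (u = w' ∧ (i : ℕ) = k) ∨
      ∃ j : Fin (k + 1), u = p j ∧ ((j : ℕ) = i + 1 ∨ (i : ℕ) = j + 1)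

variable {k : ℕ} {y : T → T → Prop} {w w' : T} {p : Fin (k + 1) → T}

theorem Pth.rev (hs : ∀ u v, y u v → y v u) (h : Pth k y w p w') :
    Pth k y w' (fun i => p i.rev) w where
  bw := h.bw'
  bw' := h.bw
  ne := h.ne.symm
  inj := fun i j hij => Fin.rev_injective (h.inj hij)
  nb := fun i => h.nb _
  st := fun i hi => hs _ _ (h.en _ (by rw [Fin.val_rev]; omega))
  mid := fun i j hij => hs _ _ (h.mid _ _ (by
    rw [Fin.val_rev, Fin.val_rev]
    have := i.2
    have := j.2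
    omega))
  en := fun i hi => hs _ _ (h.st _ (by rw [Fin.val_rev]; omega))

section map

variable {S : Type} {z : S → S → Prop} (e : T ≃ S) (h : ∀ u v, y u v ↔ z (e u) (e v))

include h

theorem big_map (u : T) : Big y u ↔ Big z (e u) := by
  constructor
  · rintro ⟨a, b, c, h1, h2, h3, h4, h5, h6⟩
    exact ⟨e a, e b, e c, fun h => h1 (e.injective h), fun h => h2 (e.injective h),
      fun h => h3 (e.injective h), (h _ _).1 h4, (h _ _).1 h5, (h _ _).1 h6⟩
  · rintro ⟨a, b, c, h1, h2, h3, h4, h5, h6⟩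
    obtain ⟨a, rfl⟩ := e.surjective a
    obtain ⟨b, rfl⟩ := e.surjective b
    obtain ⟨c, rfl⟩ := e.surjective c
    exact ⟨a, b, c, fun h => h1 (by rw [h]), fun h => h2 (by rw [h]),
      fun h => h3 (by rw [h]), (h _ _).2 h4, (h _ _).2 h5, (h _ _).2 h6⟩

theorem pth_map (w : T) (p : Fin (k + 1) → T) (w' : T) :
    Pth k y w p w' ↔ Pth k z (e w) (fun i => e (p i)) (e w') := by
  constructor
  · rintro ⟨h1, h2, h3, h4, h5, h6, h7, h8⟩
    exact ⟨(big_map e h _).1 h1, (big_map e h _).1 h2, fun h => h3 (e.injective h),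
      fun i j hij => h4 (e.injective hij), fun i => fun h' => h5 i ((big_map e h _).2 h'),
      fun i hi => (h _ _).1 (h6 i hi), fun i j hij => (h _ _).1 (h7 i j hij),
      fun i hi => (h _ _).1 (h8 i hi)⟩
  · rintro ⟨h1, h2, h3, h4, h5, h6, h7, h8⟩
    exact ⟨(big_map e h _).2 h1, (big_map e h _).2 h2, fun h => h3 (by rw [h]),
      fun i j hij => h4 (congrArg e hij), fun i => fun h' => h5 i ((big_map e h _).1 h'),
      fun i hi => (h _ _).2 (h6 i hi), fun i j hij => (h _ _).2 (h7 i j hij),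
      fun i hi => (h _ _).2 (h8 i hi)⟩

theorem Subd.map (hy : Subd k y) : Subd k z := by
  have ex : ∀ v, ∃ u, e u = v := e.surjective
  have exf : ∀ q : Fin (k + 1) → S, ∃ p : Fin (k + 1) → T, (fun i => e (p i)) = q := fun q =>
    ⟨fun i => e.symm (q i), by funext i; simp⟩
  refine ⟨?_, ?_, ?_, ?_, ?_, ?_, ?_⟩
  · intro u
    obtain ⟨u, rfl⟩ := ex u
    rw [← h]
    exact hy.irrefl u
  · intro u v
    obtain ⟨u, rfl⟩ := ex u
    obtain ⟨v, rfl⟩ := ex v
    rw [← h, ← h]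
    exact hy.symm u v
  · intro u v
    obtain ⟨u, rfl⟩ := ex u
    obtain ⟨v, rfl⟩ := ex v
    rw [← h, ← big_map e h, ← big_map e h]
    exact hy.indep u v
  · intro u
    obtain ⟨u, rfl⟩ := ex u
    rw [← big_map e h]
    intro hu
    rcases hy.cov u hu with h1 | ⟨w, p, w', i, h1, h2⟩
    · left
      intro v
      obtain ⟨v, rfl⟩ := ex v
      rw [← h]
      exact h1 v
    · right
      exact ⟨e w, fun i => e (p i), e w', i, (pth_map e h _ _ _).1 h1, congrArg e h2⟩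
  · intro w p w' q
    obtain ⟨w, rfl⟩ := ex w
    obtain ⟨w', rfl⟩ := ex w'
    obtain ⟨p, rfl⟩ := exf p
    obtain ⟨q, rfl⟩ := exf q
    rw [← pth_map e h, ← pth_map e h]
    intro h1 h2
    rw [hy.uq w p w' q h1 h2]
  · intro w p w' v q v' i j
    obtain ⟨w, rfl⟩ := ex w
    obtain ⟨w', rfl⟩ := ex w'
    obtain ⟨p, rfl⟩ := exf p
    obtain ⟨v, rfl⟩ := ex v
    obtain ⟨v', rfl⟩ := ex v'
    obtain ⟨q, rfl⟩ := exf q
    rw [← pth_map e h, ← pth_map e h]
    intro h1 h2 h3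
    rcases hy.uniq w p w' v q v' i j h1 h2 (e.injective h3) with ⟨h4, h5, h6⟩ | ⟨h4, h5, h6⟩
    · exact Or.inl ⟨congrArg e h4, congrArg e h5, h6⟩
    · exact Or.inr ⟨congrArg e h4, congrArg e h5, h6⟩
  · intro w p w' i u
    obtain ⟨w, rfl⟩ := ex w
    obtain ⟨w', rfl⟩ := ex w'
    obtain ⟨p, rfl⟩ := exf p
    obtain ⟨u, rfl⟩ := ex u
    rw [← pth_map e h]
    intro h1 h2
    rcases hy.cl w p w' i u h1 ((h _ _).2 h2) with ⟨h3, h4⟩ | ⟨h3, h4⟩ | ⟨j, h3, h4⟩
    · exact Or.inl ⟨congrArg e h3, h4⟩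
    · exact Or.inr (Or.inl ⟨congrArg e h3, h4⟩)
    · exact Or.inr (Or.inr ⟨j, congrArg e h3, h4⟩)

end map

/-- the subdivided relation -/
def Adj' (k : ℕ) (y : T → T → Prop) (w w' : T) : Prop := ∃ p, Pth k y w p w'

/-- Subdivided graphs are determined by the graph on the big vertices. -/
theorem Subd.ext {S : Type} {z : S → S → Prop} (hy : Subd k y) (hz : Subd k z)
    (π : {u // Big y u} ≃ {u // Big z u})
    (hπ : ∀ u v : {u // Big y u}, Adj' k y u v ↔ Adj' k z (π u) (π v))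
    (ι : {u // ∀ v, ¬ y u v} ≃ {u // ∀ v, ¬ z u v}) :
    ∃ e : T ≃ S, ∀ u v, y u v ↔ z (e u) (e v) := by
  classical
  -- the correspondence
  let R : T → S → Prop := fun u v =>
    (∃ hu : Big y u, v = π ⟨u, hu⟩) ∨ (∃ hu : ∀ v, ¬ y u v, v = ι ⟨u, hu⟩) ∨
    ∃ (w w' : {u // Big y u}) (p : Fin (k + 1) → T) (q : Fin (k + 1) → S) (i : Fin (k + 1)),
      Pth k y w p w' ∧ Pth k z (π w) q (π w') ∧ u = p i ∧ v = q i
  -- the ends of the paths
  have pos : ∀ {w p w'}, Pth k y w p w' → ∀ i, ∃ v, y (p i) v := by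
    intro w p w' hp i
    by_cases hi : (i : ℕ) = k
    · exact ⟨_, hp.en i hi⟩
    · exact ⟨_, hp.mid i ⟨i + 1, by have := i.2; omega⟩ rfl⟩
  have nIB : ∀ u, Big y u → ¬ ∀ v, ¬ y u v := fun u ⟨a, _, _, _, _, _, h, _⟩ h' => h' a h
  have h1 : ∀ s, ∃ t, R s t := by
    intro u
    by_cases hu : Big y u
    · exact ⟨_, Or.inl ⟨hu, rfl⟩⟩
    · rcases hy.cov u hu with h | ⟨w, p, w', i, h, h'⟩
      · exact ⟨_, Or.inr (Or.inl ⟨h, rfl⟩)⟩
      · obtain ⟨q, hq⟩ := (hπ ⟨w, h.bw⟩ ⟨w', h.bw'⟩).1 ⟨p, h⟩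
        exact ⟨q i, Or.inr (Or.inr ⟨⟨w, h.bw⟩, ⟨w', h.bw'⟩, p, q, i, h, hq, h'.symm, rfl⟩)⟩
  have h2 : ∀ t, ∃ s, R s t := by
    intro u
    by_cases hu : Big z u
    · refine ⟨π.symm ⟨u, hu⟩, Or.inl ⟨(π.symm ⟨u, hu⟩).2, ?_⟩⟩
      simp
    · rcases hz.cov u hu with h | ⟨w, p, w', i, h, h'⟩
      · refine ⟨ι.symm ⟨u, h⟩, Or.inr (Or.inl ⟨(ι.symm ⟨u, h⟩).2, ?_⟩)⟩
        simp
      · obtain ⟨v, hv⟩ := π.surjective ⟨w, h.bw⟩
        obtain ⟨v', hv'⟩ := π.surjective ⟨w', h.bw'⟩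
        have e1 : (π v : S) = w := by rw [hv]
        have e2 : (π v' : S) = w' := by rw [hv']
        obtain ⟨q, hq⟩ := (hπ v v').2 ⟨p, by rw [e1, e2]; exact h⟩
        exact ⟨q i, Or.inr (Or.inr ⟨v, v', q, p, i, hq, by rw [e1, e2]; exact h, rfl, h'.symm⟩)⟩
  have h3 : ∀ s t t', R s t → R s t' → t = t' := by
    rintro u v v' (⟨h, rfl⟩ | ⟨h, rfl⟩ | ⟨w, w', p, q, i, h, h', h'', rfl⟩)
      (⟨k1, rfl⟩ | ⟨k1, rfl⟩ | ⟨x, x', p', q', i', k1, k2, k3, rfl⟩)
    · rfl
    · exact absurd k1 (nIB u h)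
    · exact absurd (k3 ▸ h) (k1.nb i')
    · exact absurd h (nIB u k1)
    · rfl
    · obtain ⟨v, hv⟩ := pos k1 i'
      exact absurd (k3 ▸ hv) (h v)
    · exact absurd (h'' ▸ k1) (h.nb i)
    · obtain ⟨v, hv⟩ := pos h i
      exact absurd (h'' ▸ hv) (k1 v)
    · rcases hy.uniq w p w' x p' x' i i' h k1 (h''.symm.trans k3) with ⟨e1, e2, e3⟩ | ⟨e1, e2, e3⟩
      · have e1' := Subtype.ext e1
        have e2' := Subtype.ext e2
        subst e1' e2' e3
        rw [hz.uq _ _ _ _ h' k2]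
      · have e1' := Subtype.ext e1
        have e2' := Subtype.ext e2
        subst e1' e2'
        have := hz.uq _ _ _ _ h' (k2.rev hz.symm)
        rw [this]
        show q' i.rev = q' i'
        congr 1
        apply Fin.ext
        rw [Fin.val_rev]
        omega
  have h4 : ∀ s s' t, R s t → R s' t → s = s' := by
    have nIB' : ∀ u, Big z u → ¬ ∀ v, ¬ z u v := fun u ⟨a, _, _, _, _, _, h, _⟩ h' => h' a h
    have pos' : ∀ {w p w'}, Pth k z w p w' → ∀ i, ∃ v, z (p i) v := by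
      intro w p w' hp i
      by_cases hi : (i : ℕ) = k
      · exact ⟨_, hp.en i hi⟩
      · exact ⟨_, hp.mid i ⟨i + 1, by have := i.2; omega⟩ rfl⟩
    rintro u u' v (⟨h, h'⟩ | ⟨h, h'⟩ | ⟨w, w', p, q, i, h, h', h'', e⟩)
      (⟨k1, k2⟩ | ⟨k1, k2⟩ | ⟨x, x', p', q', i', k1, k2, k3, e'⟩)
    · have := π.injective (Subtype.ext (h'.symm.trans k2))
      exact congrArg Subtype.val this
    · have b1 : Big z v := by rw [h']; exact (π _).2
      have b2 : ∀ t, ¬ z v t := by rw [k2]; exact (ι _).2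
      exact absurd b2 (nIB' v b1)
    · have b1 : Big z v := by rw [h']; exact (π _).2
      exact absurd (e' ▸ b1) (k2.nb i')
    · have b1 : Big z v := by rw [k2]; exact (π _).2
      have b2 : ∀ t, ¬ z v t := by rw [h']; exact (ι _).2
      exact absurd b2 (nIB' v b1)
    · have := ι.injective (Subtype.ext (h'.symm.trans k2))
      exact congrArg Subtype.val this
    · have b2 : ∀ t, ¬ z v t := by rw [h']; exact (ι _).2
      obtain ⟨t, ht⟩ := pos' k2 i'
      exact absurd (e' ▸ ht) (b2 t)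
    · have b1 : Big z v := by rw [k2]; exact (π _).2
      exact absurd (e ▸ b1) (h'.nb i)
    · have b2 : ∀ t, ¬ z v t := by rw [k2]; exact (ι _).2
      obtain ⟨t, ht⟩ := pos' h' i
      exact absurd (e ▸ ht) (b2 t)
    · rcases hz.uniq _ q _ _ q' _ i i' h' k2 (e.symm.trans e') with ⟨e1, e2, e3⟩ | ⟨e1, e2, e3⟩
      · have e1' := π.injective (Subtype.ext e1)
        have e2' := π.injective (Subtype.ext e2)
        subst e1' e2' e3
        rw [h'', k3, hy.uq _ _ _ _ h k1]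
      · have e1' := π.injective (Subtype.ext e1)
        have e2' := π.injective (Subtype.ext e2)
        subst e1' e2'
        have := hy.uq _ _ _ _ h (k1.rev hy.symm)
        rw [h'', k3, this]
        show p' i.rev = p' i'
        congr 1
        apply Fin.ext
        rw [Fin.val_rev]
        omega
  obtain ⟨e, he⟩ := equiv_of_rel R h1 h2 h3 h4
  -- adjacency
  have key : ∀ u u' v v', R u v → R u' v' → y u u' → z v v' := by
    have main : ∀ u u' v v' (w w' : {u // Big y u}) (p : Fin (k + 1) → T) (q : Fin (k + 1) → S)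
        (i : Fin (k + 1)), Pth k y w p w' → Pth k z (π w) q (π w') → u = p i → v = q i →
        R u' v' → y u u' → z v v' := by
      intro u u' v v' w w' p q i h h' hu hv hr hyy
      subst hu hv
      rcases hy.cl w p w' i u' h hyy with ⟨e1, e2⟩ | ⟨e1, e2⟩ | ⟨j, e1, e2⟩
      · subst e1
        have e3 : v' = π w := h3 _ _ _ hr (Or.inl ⟨w.2, rfl⟩)
        rw [e3]
        exact hz.symm _ _ (h'.st i e2)
      · subst e1
        have e3 : v' = π w' := h3 _ _ _ hr (Or.inl ⟨w'.2, rfl⟩)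
        rw [e3]
        exact h'.en i e2
      · subst e1
        have e3 : v' = q j := h3 _ _ _ hr (Or.inr (Or.inr ⟨w, w', p, q, j, h, h', rfl, rfl⟩))
        rw [e3]
        rcases e2 with e2 | e2
        · exact h'.mid i j e2
        · exact hz.symm _ _ (h'.mid j i e2)
    intro u u' v v' hr hr' hyy
    rcases hr with ⟨h, hv⟩ | ⟨h, hv⟩ | ⟨w, w', p, q, i, h, h', hu, hv⟩
    · rcases hr' with ⟨k1, k2⟩ | ⟨k1, k2⟩ | ⟨x, x', p', q', i', k1, k2, k3, k4⟩
      · exact absurd hyy (hy.indep _ _ h k1)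
      · exact absurd (hy.symm _ _ hyy) (k1 _)
      · exact hz.symm _ _ (main u' u v' v x x' p' q' i' k1 k2 k3 k4 (Or.inl ⟨h, hv⟩)
          (hy.symm _ _ hyy))
    · exact absurd hyy (h _)
    · exact main u u' v v' w w' p q i h h' hu hv hr' hyy
  have key' : ∀ u u' v v', R u v → R u' v' → z v v' → y u u' := by
    have main : ∀ u u' v v' (w w' : {u // Big y u}) (p : Fin (k + 1) → T) (q : Fin (k + 1) → S)
        (i : Fin (k + 1)), Pth k y w p w' → Pth k z (π w) q (π w') → u = p i → v = q i →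
        R u' v' → z v v' → y u u' := by
      intro u u' v v' w w' p q i h h' hu hv hr hyy
      subst hu hv
      rcases hz.cl _ q _ i v' h' hyy with ⟨e1, e2⟩ | ⟨e1, e2⟩ | ⟨j, e1, e2⟩
      · subst e1
        have e3 : u' = w := h4 _ _ _ hr (Or.inl ⟨w.2, rfl⟩)
        rw [e3]
        exact hy.symm _ _ (h.st i e2)
      · subst e1
        have e3 : u' = w' := h4 _ _ _ hr (Or.inl ⟨w'.2, rfl⟩)
        rw [e3]
        exact h.en i e2
      · subst e1
        have e3 : u' = p j := h4 _ _ _ hr (Or.inr (Or.inr ⟨w, w', p, q, j, h, h', rfl, rfl⟩))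
        rw [e3]
        rcases e2 with e2 | e2
        · exact h.mid i j e2
        · exact hy.symm _ _ (h.mid j i e2)
    intro u u' v v' hr hr' hyy
    rcases hr with ⟨h, hv⟩ | ⟨h, hv⟩ | ⟨w, w', p, q, i, h, h', hu, hv⟩
    · rcases hr' with ⟨k1, k2⟩ | ⟨k1, k2⟩ | ⟨x, x', p', q', i', k1, k2, k3, k4⟩
      · rw [hv, k2] at hyy
        exact absurd hyy (hz.indep _ _ (π _).2 (π _).2)
      · rw [hv, k2] at hyy
        exact absurd (hz.symm _ _ hyy) ((ι _).2 _)
      · exact hy.symm _ _ (main u' u v' v x x' p' q' i' k1 k2 k3 k4 (Or.inl ⟨h, hv⟩)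
          (hz.symm _ _ hyy))
    · rw [hv] at hyy
      exact absurd hyy ((ι _).2 _)
    · exact main u u' v v' w w' p q i h h' hu hv hr' hyy
  exact ⟨e, fun u v => ⟨key _ _ _ _ (he u) (he v), key' _ _ _ _ (he u) (he v)⟩⟩

end gen

end Pool.Agent.W889.SD
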