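import Pool.Agent.W889.SD.Enc

set_option autoImplicit false

/-! Faithful completeness of the class of subdivided graphs. -/

namespace Pool.Agent.W889.SD

open Set
open Pool.Agent.W889.VC

section meas

variable {Y : Type} [MeasurableSpace Y] {r : ℕ → ℕ → Y → Prop} {k : ℕ}

theorem bp_big (h : ∀ u v, BP (r u v)) (u : ℕ) : BP (fun y => Big (fun u v => r u v y) u) :=
  BP.ex fun a => BP.ex fun b => BP.ex fun c => (BP.const (a ≠ b)).and <|
    (BP.const (a ≠ c)).and <| (BP.const (b ≠ c)).and <| (h u a).and <| (h u b).and (h u c)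

theorem bp_pth (h : ∀ u v, BP (r u v)) (w : ℕ) (p : Fin (k + 1) → ℕ) (w' : ℕ) :
    BP (fun y => Pth k (fun u v => r u v y) w p w') := by
  have : BP (fun y => Big (fun u v => r u v y) w ∧ Big (fun u v => r u v y) w' ∧ w ≠ w' ∧
      Function.Injective p ∧ (∀ i, ¬ Big (fun u v => r u v y) (p i)) ∧
      (∀ i : Fin (k + 1), (i : ℕ) = 0 → r w (p i) y) ∧
      (∀ i j : Fin (k + 1), (j : ℕ) = i + 1 → r (p i) (p j) y) ∧
      ∀ i : Fin (k + 1), (i : ℕ) = k → r (p i) w' y) :=
    (bp_big h w).and <| (bp_big h w').and <| (BP.const _).and <| (BP.const _).and <|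
    (BP.all fun i => (bp_big h (p i)).not).and <|
    (BP.all fun i => (BP.const _).imp (h _ _)).and <|
    (BP.all fun i => BP.all fun j => (BP.const _).imp (h _ _)).and <|
    BP.all fun i => (BP.const _).imp (h _ _)
  exact this.congr fun y => ⟨fun ⟨h1, h2, h3, h4, h5, h6, h7, h8⟩ =>
    ⟨h1, h2, h3, h4, h5, h6, h7, h8⟩, fun ⟨h1, h2, h3, h4, h5, h6, h7, h8⟩ =>
    ⟨h1, h2, h3, h4, h5, h6, h7, h8⟩⟩

theorem bp_subd (h : ∀ u v, BP (r u v)) : BP (fun y => Subd k (fun u v => r u v y)) := by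
  have : BP (fun y =>
      (∀ u, ¬ r u u y) ∧
      (∀ u v, r u v y → r v u y) ∧
      (∀ u v, Big (fun u v => r u v y) u → Big (fun u v => r u v y) v → ¬ r u v y) ∧
      (∀ u, ¬ Big (fun u v => r u v y) u → (∀ v, ¬ r u v y) ∨
        ∃ w, ∃ p : Fin (k + 1) → ℕ, ∃ w' i, Pth k (fun u v => r u v y) w p w' ∧ p i = u) ∧
      (∀ w, ∀ p : Fin (k + 1) → ℕ, ∀ w', ∀ q : Fin (k + 1) → ℕ, Pth k (fun u v => r u v y) w p w' →
        Pth k (fun u v => r u v y) w q w' → p = q) ∧
      (∀ w, ∀ p : Fin (k + 1) → ℕ, ∀ w' v, ∀ q : Fin (k + 1) → ℕ, ∀ v', ∀ i j : Fin (k + 1),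
        Pth k (fun u v => r u v y) w p w' → Pth k (fun u v => r u v y) v q v' → p i = q j →
        ((v = w ∧ v' = w' ∧ j = i) ∨ (v = w' ∧ v' = w ∧ (i : ℕ) + j = k))) ∧
      (∀ w, ∀ p : Fin (k + 1) → ℕ, ∀ w', ∀ i : Fin (k + 1), ∀ u,
        Pth k (fun u v => r u v y) w p w' → r (p i) u y →
        ((u = w ∧ (i : ℕ) = 0) ∨ (u = w' ∧ (i : ℕ) = k) ∨
        ∃ j : Fin (k + 1), u = p j ∧ ((j : ℕ) = i + 1 ∨ (i : ℕ) = j + 1)))) :=
    (BP.all fun u => (h u u).not).and <|
    (BP.all fun u => BP.all fun v => (h u v).imp (h v u)).and <|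
    (BP.all fun u => BP.all fun v => (bp_big h u).imp <| (bp_big h v).imp (h u v).not).and <|
    (BP.all fun u => (bp_big h u).not.imp <| (BP.all fun v => (h u v).not).or <|
      BP.ex fun w => BP.ex fun p : Fin (k + 1) → ℕ => BP.ex fun w' => BP.ex fun i =>
        (bp_pth h w p w').and (BP.const _)).and <|
    (BP.all fun w => BP.all fun p : Fin (k + 1) → ℕ => BP.all fun w' =>
      BP.all fun q : Fin (k + 1) → ℕ => (bp_pth h w p w').imp <| (bp_pth h w q w').imp
        (BP.const _)).and <|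
    (BP.all fun w => BP.all fun p : Fin (k + 1) → ℕ => BP.all fun w' => BP.all fun v =>
      BP.all fun q : Fin (k + 1) → ℕ => BP.all fun v' => BP.all fun i : Fin (k + 1) =>
        BP.all fun j : Fin (k + 1) => (bp_pth h w p w').imp <| (bp_pth h v q v').imp <|
        (BP.const _).imp (BP.const _)).and <|
    (BP.all fun w => BP.all fun p : Fin (k + 1) → ℕ => BP.all fun w' =>
      BP.all fun i : Fin (k + 1) => BP.all fun u => (bp_pth h w p w').imp <|
        (h (p i) u).imp (BP.const _))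
  exact this.congr fun y => ⟨fun ⟨h1, h2, h3, h4, h5, h6, h7⟩ =>
    ⟨h1, h2, h3, h4, h5, h6, h7⟩, fun ⟨h1, h2, h3, h4, h5, h6, h7⟩ =>
    ⟨h1, h2, h3, h4, h5, h6, h7⟩⟩

theorem bp_adj' (h : ∀ u v, BP (r u v)) (u v : ℕ) :
    BP (fun y => Adj' k (fun u v => r u v y) u v) :=
  BP.ex fun p : Fin (k + 1) → ℕ => bp_pth h u p v

end meas

/-- the relation of a code -/
def rel (y : BinStr) (u v : ℕ) : Prop := y u v = true

/-- subdivided graphs with infinitely many big and infinitely many isolated vertices -/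
def WS (k : ℕ) (y : BinStr) : Prop :=
  Subd k (rel y) ∧ (∀ N, ∃ u, N ≤ u ∧ Big (rel y) u) ∧ ∀ N, ∃ u, N ≤ u ∧ ∀ v, ¬ rel y u v

theorem bp_WS (k : ℕ) : BP (WS k) :=
  (bp_subd bp_atom).and <| (BP.all fun N => BP.ex fun u => (BP.const (N ≤ u)).and
    (bp_big bp_atom u)).and <| BP.all fun N => BP.ex fun u => (BP.const (N ≤ u)).and
    (BP.all fun v => (bp_atom u v).not)

/-- infinite subsets of `ℕ` -/
theorem inf_of {P : ℕ → Prop} (h : ∀ N, ∃ u, N ≤ u ∧ P u) : Infinite {u // P u} := by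
  obtain ⟨e, -⟩ := nth_equiv h
  exact Infinite.of_injective e e.injective

theorem of_inf {P : ℕ → Prop} (h : Infinite {u // P u}) (N : ℕ) : ∃ u, N ≤ u ∧ P u := by
  by_contra hcon
  push Not at hcon
  have : {u | P u}.Finite := by
    refine (Set.finite_lt_nat N).subset fun u hu => ?_
    by_contra h'
    exact hcon u (by simpa using h') hu
  exact this.not_infinite (Set.infinite_coe_iff.1 h)

theorem rel_equi {σ : Equiv.Perm ℕ} {y z : BinStr} (h : ∀ m n, z (σ m) (σ n) = y m n) (u v : ℕ) :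
    rel y u v ↔ rel z (σ u) (σ v) := by
  unfold rel
  rw [h]

theorem WS_inv {k : ℕ} {y z : BinStr} (h : BIso y z) (hy : WS k y) : WS k z := by
  obtain ⟨σ, hσ⟩ := h
  have hr := rel_equi hσ
  obtain ⟨h1, h2, h3⟩ := hy
  refine ⟨h1.map σ hr, of_inf ?_, of_inf ?_⟩
  · have := inf_of h2
    exact Infinite.of_injective (fun u : {u // Big (rel y) u} =>
      (⟨σ u, (big_map σ hr _).1 u.2⟩ : {u // Big (rel z) u})) (fun u v huv => by
        apply Subtype.ext
        exact σ.injective (congrArg Subtype.val huv))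
  · have := inf_of h3
    refine Infinite.of_injective (fun u : {u // ∀ v, ¬ rel y u v} =>
      (⟨σ u, fun v => ?_⟩ : {u // ∀ v, ¬ rel z u v})) (fun u v huv => ?_)
    · obtain ⟨v, rfl⟩ := σ.surjective v
      rw [← hr]
      exact u.2 v
    · apply Subtype.ext
      exact σ.injective (congrArg Subtype.val huv)

theorem equiv_inf {P Q : ℕ → Prop} (hP : ∀ N, ∃ u, N ≤ u ∧ P u) (hQ : ∀ N, ∃ u, N ≤ u ∧ Q u) :
    Nonempty ({u // P u} ≃ {u // Q u}) := by
  obtain ⟨e, -⟩ := nth_equiv hP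
  obtain ⟨e', -⟩ := nth_equiv hQ
  exact ⟨e.symm.trans e'⟩

/-- decoding -/
noncomputable def dS (k : ℕ) : BinStr → BinStr :=
  dc (fun y u => Big (rel y) u) (fun y u v => Adj' k (rel y) u v)

theorem dS_iso {k : ℕ} {y z : BinStr} (hy : WS k y) (hz : WS k z) :
    BIso y z ↔ BIso (dS k y) (dS k z) := by
  unfold dS
  rw [dc_iso (P := fun y u => Big (rel y) u) (A := fun y u v => Adj' k (rel y) u v) hy.2.1 hz.2.1]
  constructor
  · rintro ⟨σ, hσ⟩
    have hr := rel_equi hσ
    refine ⟨σ.subtypeEquiv (big_map σ hr), fun u v => ?_⟩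
    constructor
    · rintro ⟨p, hp⟩
      exact ⟨_, (pth_map σ hr _ _ _).1 hp⟩
    · rintro ⟨p, hp⟩
      refine ⟨fun i => σ.symm (p i), (pth_map σ hr _ _ _).2 ?_⟩
      have : (fun i => σ (σ.symm (p i))) = p := by
        funext i
        simp
      rw [this]
      exact hp
  · rintro ⟨π, hπ⟩
    obtain ⟨ι⟩ := equiv_inf hy.2.2 hz.2.2
    obtain ⟨e, he⟩ := Subd.ext hy.1 hz.1 π hπ ι
    refine ⟨e, fun m n => ?_⟩
    rw [Bool.eq_iff_iff]
    exact (he m n).symm

theorem dS_ex {k : ℕ} (x : BinStr) (hg : IsGraph x) (hb : ∀ u, Big (rel x) u) :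
    ∃ y, WS k y ∧ BIso (dS k y) x := by
  classical
  have hs : ∀ u v, rel x u v → rel x v u := hg.symm
  have hi : ∀ u, ¬ rel x u u := fun u h => by
    unfold rel at h
    rw [hg.irrefl u] at h
    exact absurd h (by decide)
  obtain ⟨e⟩ : Nonempty (Tk k ≃ ℕ) := nonempty_equiv_of_countable
  let y : BinStr := fun m n => decide (sub k (rel x) (e.symm m) (e.symm n))
  have hy : ∀ u v, sub k (rel x) u v ↔ rel y (e u) (e v) := by
    intro u v
    simp [rel, y]
  have hsub : Subd k (rel y) := (sub_subd hs hi hb).map e hy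
  have h1 : ∀ N, ∃ u, N ≤ u ∧ Big (rel y) u := by
    refine of_inf (Infinite.of_injective (fun u : ℕ =>
      (⟨e (Sum.inl u), (big_map e hy _).1 (big_inl hs hi hb u)⟩ : {u // Big (rel y) u}))
      (fun u v huv => ?_))
    exact Sum.inl.inj (e.injective (congrArg Subtype.val huv))
  have h2 : ∀ N, ∃ u, N ≤ u ∧ ∀ v, ¬ rel y u v := by
    refine of_inf (Infinite.of_injective (fun u : ℕ =>
      (⟨e (Sum.inr (u, u, 0)), fun v => ?_⟩ : {u // ∀ v, ¬ rel y u v}))
      (fun u v huv => ?_))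
    · obtain ⟨v, rfl⟩ := e.surjective v
      rw [← hy]
      rcases v with v | ⟨a, b, j⟩
      · exact fun h => absurd h.1 (lt_irrefl _)
      · exact fun h => absurd h.1 (lt_irrefl _)
    · have := Sum.inr.inj (e.injective (congrArg Subtype.val huv))
      exact (Prod.mk.inj this).1
  refine ⟨y, ⟨hsub, h1, h2⟩, ?_⟩
  have hbij : Function.Bijective (fun u : ℕ =>
      (⟨e (Sum.inl u), (big_map e hy _).1 (big_inl hs hi hb u)⟩ : {u // Big (rel y) u})) := by
    constructor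
    · intro u v huv
      exact Sum.inl.inj (e.injective (congrArg Subtype.val huv))
    · rintro ⟨u, hu⟩
      obtain ⟨t, rfl⟩ := e.surjective u
      have := (big_map e hy t).2 hu
      rcases t with t | t
      · exact ⟨t, rfl⟩
      · exact absurd this (not_big_inr t)
  refine dc_iso' (P := fun y u => Big (rel y) u) (A := fun y u v => Adj' k (rel y) u v) h1
    (Equiv.ofBijective _ hbij) (fun m n => ?_)
  show rel x m n ↔ Adj' k (rel y) (e (Sum.inl m)) (e (Sum.inl n))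
  rw [← adj_inl hs hi hb (k := k)]
  constructor
  · rintro ⟨p, hp⟩
    exact ⟨_, (pth_map e hy _ _ _).1 hp⟩
  · rintro ⟨p, hp⟩
    refine ⟨fun i => e.symm (p i), (pth_map e hy _ _ _).2 ?_⟩
    have : (fun i => e (e.symm (p i))) = p := by
      funext i
      simp
    rw [this]
    exact hp

theorem faithful_WS (k : ℕ) {K0 : BinStr → Prop} (hF : Faithful BIso K0)
    (hK0 : ∀ x, K0 x → IsGraph x ∧ ∀ u, Big (rel x) u) : Faithful BIso (WS k) :=
  faithful_interp hF (W := WS k) (δ := dS k) (fun _ _ h => h.symm) (bp_WS k)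
    (measurable_dc (fun u => bp_big bp_atom u) (fun u v => bp_adj' bp_atom u v))
    (fun _ _ h hy => WS_inv h hy) (fun _ _ hy hz => dS_iso hy hz)
    (fun x hx => dS_ex x (hK0 x hx).1 (hK0 x hx).2) (fun _ h => h)

end Pool.Agent.W889.SD
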